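import Mathlib

/-!
Expansion of ordered products `∏ (1 + x_j)^ω` averaged over `ω`, and polynomial sequences in a
filtered algebra.
-/

set_option autoImplicit false
set_option linter.unusedSectionVars false
set_option linter.style.haveILetI false

namespace Pool.Agent.Lib.MP_6d9b00_al.W34

open Finset

variable {p : ℕ} [hp : Fact p.Prime]

/-- sums over `range p` as sums over the field -/
lemma sum_range_eq_zmod {B : Type*} [AddCommMonoid B] (f : ℕ → B) :
    ∑ i ∈ range p, f i = ∑ y : ZMod p, f y.val := by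
  symm
  refine Finset.sum_bij (fun y _ => y.val) (fun y _ => mem_range.2 (ZMod.val_lt y))
    (fun a _ b _ h => ZMod.val_injective p h) (fun i hi => ⟨(i : ZMod p), mem_univ _, ?_⟩)
    (fun _ _ => rfl)
  exact ZMod.val_natCast_of_lt (mem_range.1 hi)

lemma sum_pow_zmod (n : ℕ) (hn : 0 < n) :
    ∑ y : ZMod p, y ^ n = if (p - 1) ∣ n then -1 else 0 := by
  classical
  have h := FiniteField.sum_pow_units (ZMod p) n
  rw [ZMod.card] at h
  rw [← h]
  have : ∑ y : ZMod p, y ^ n = ∑ y ∈ (univ : Finset (ZMod p)).filter (· ≠ 0), y ^ n := by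
    rw [Finset.sum_filter]
    refine Finset.sum_congr rfl (fun y _ => ?_)
    split_ifs with hy
    · rfl
    · push Not at hy; rw [hy, zero_pow hn.ne']
  rw [this]
  symm
  refine Finset.sum_bij (fun u _ => (u : ZMod p)) (fun u _ => by simp)
    (fun a _ b _ h => Units.ext h) (fun y hy => ⟨Units.mk0 y (by simpa using hy), mem_univ _, rfl⟩)
    (fun u _ => by simp)

lemma sum_range_pow_mul {M B : Type*} [Monoid M] [AddCommMonoid B] (x : M) (hx : x ^ p = 1)
    (g : M → B) (l : ℕ) (h0 : 0 < l) (hl : l < p) :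
    ∑ i ∈ range p, g (x ^ (i * l)) = ∑ i ∈ range p, g (x ^ i) := by
  rw [sum_range_eq_zmod (fun i => g (x ^ (i * l))), sum_range_eq_zmod (fun i => g (x ^ i))]
  have hl0 : (l : ZMod p) ≠ 0 := by
    rw [Ne, ZMod.natCast_eq_zero_iff]
    exact Nat.not_dvd_of_pos_of_lt h0 hl
  refine Fintype.sum_equiv (Equiv.mulRight₀ (l : ZMod p) hl0) _ _ (fun y => ?_)
  congr 1
  rw [Equiv.mulRight₀_apply, ZMod.val_mul, ZMod.val_natCast_of_lt hl]
  conv_lhs => rw [← Nat.mod_add_div (y.val * l) p, pow_add, pow_mul, hx, one_pow, mul_one]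

lemma geom_charp {B : Type*} [Ring B] [Algebra (ZMod p) B] (E : B) :
    (E - 1) ^ (p - 1) = ∑ i ∈ range p, E ^ i := by
  have h : (Polynomial.X - 1 : Polynomial (ZMod p)) ^ (p - 1) = ∑ i ∈ range p, Polynomial.X ^ i := by
    have hne : (Polynomial.X - 1 : Polynomial (ZMod p)) ≠ 0 := by
      simpa using Polynomial.X_sub_C_ne_zero (1 : ZMod p)
    apply mul_right_cancel₀ hne
    rw [geom_sum_mul, ← pow_succ, Nat.sub_add_cancel hp.out.one_le, sub_pow_char, one_pow]
  have := congrArg (Polynomial.aeval E) h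
  simpa [map_sum] using this

section expand
variable {B : Type*} [Ring B] [Algebra (ZMod p) B]

/-- span of the words of length at least `d` in the letters `x j` -/
def Wd (p : ℕ) {B : Type*} [Ring B] [Algebra (ZMod p) B] (x : ℕ → B) (d : ℕ) :
    Submodule (ZMod p) B :=
  Submodule.span (ZMod p) {y | ∃ L : List ℕ, d ≤ L.length ∧ y = (L.map x).prod}

lemma Wd_anti (x : ℕ → B) {d d' : ℕ} (h : d ≤ d') : Wd p x d' ≤ Wd p x d := by
  apply Submodule.span_mono
  rintro y ⟨L, h1, h2⟩
  exact ⟨L, h.trans h1, h2⟩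

lemma Wd_mul (x : ℕ → B) {d d' : ℕ} {u v : B} (hu : u ∈ Wd p x d) (hv : v ∈ Wd p x d') :
    u * v ∈ Wd p x (d + d') := by
  induction hu using Submodule.span_induction with
  | mem u hu =>
    induction hv using Submodule.span_induction with
    | mem v hv =>
      obtain ⟨L, h1, rfl⟩ := hu
      obtain ⟨L', h1', rfl⟩ := hv
      exact Submodule.subset_span ⟨L ++ L', by simp; omega, by simp⟩
    | zero => simp
    | add a b _ _ ha hb => rw [mul_add]; exact add_mem ha hb
    | smul r a _ ha => rw [mul_smul_comm]; exact Submodule.smul_mem _ _ ha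
  | zero => simp
  | add a b _ _ ha hb => rw [add_mul]; exact add_mem ha hb
  | smul r a _ ha => rw [smul_mul_assoc]; exact Submodule.smul_mem _ _ ha

lemma Wd_pow (x : ℕ → B) (j n : ℕ) : x j ^ n ∈ Wd p x n :=
  Submodule.subset_span ⟨List.replicate n j, by simp, by simp⟩

/-- polynomial functions of `ω` whose coefficient of degree `d ≥ r` is made of words of
length at least `d` -/
def Ed (p : ℕ) {B : Type*} [Ring B] [Algebra (ZMod p) B] (x : ℕ → B) (r : ℕ) :
    Submodule (ZMod p) (ZMod p → B) :=
  Submodule.span (ZMod p) {f | ∃ d u, r ≤ d ∧ u ∈ Wd p x d ∧ f = fun ω => ω ^ d • u}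

lemma Ed_anti (x : ℕ → B) {d d' : ℕ} (h : d ≤ d') : Ed p x d' ≤ Ed p x d := by
  apply Submodule.span_mono
  rintro y ⟨e, u, h1, h2, h3⟩
  exact ⟨e, u, h.trans h1, h2, h3⟩

lemma Ed_mul (x : ℕ → B) {d d' : ℕ} {u v : ZMod p → B} (hu : u ∈ Ed p x d) (hv : v ∈ Ed p x d') :
    u * v ∈ Ed p x (d + d') := by
  induction hu using Submodule.span_induction with
  | mem u hu =>
    induction hv using Submodule.span_induction with
    | mem v hv =>
      obtain ⟨e, u, h1, h2, rfl⟩ := hu
      obtain ⟨e', u', h1', h2', rfl⟩ := hv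
      refine Submodule.subset_span ⟨e + e', u * u', by omega, Wd_mul x h2 h2', ?_⟩
      funext ω
      simp [pow_add, smul_smul, mul_comm]
    | zero => simp
    | add a b _ _ ha hb => rw [mul_add]; exact add_mem ha hb
    | smul r a _ ha => rw [mul_smul_comm]; exact Submodule.smul_mem _ _ ha
  | zero => simp
  | add a b _ _ ha hb => rw [add_mul]; exact add_mem ha hb
  | smul r a _ ha => rw [smul_mul_assoc]; exact Submodule.smul_mem _ _ ha

/-- the binomial coefficient as a polynomial over the field with `p` elements -/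
noncomputable def binPoly (p n : ℕ) [Fact p.Prime] : Polynomial (ZMod p) :=
  Polynomial.C ((n.factorial : ZMod p)⁻¹) * descPochhammer (ZMod p) n

lemma binPoly_eval {n : ℕ} (hn : n < p) (m : ℕ) :
    (binPoly p n).eval (m : ZMod p) = (m.choose n : ZMod p) := by
  have hf : (n.factorial : ZMod p) ≠ 0 := by
    rw [Ne, ZMod.natCast_eq_zero_iff, hp.out.dvd_factorial]; omega
  rw [binPoly, Polynomial.eval_mul, Polynomial.eval_C, descPochhammer_eval_eq_descFactorial,
    Nat.descFactorial_eq_factorial_mul_choose, Nat.cast_mul, ← mul_assoc, inv_mul_cancel₀ hf,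
    one_mul]

lemma binPoly_natDegree (n : ℕ) : (binPoly p n).natDegree ≤ n := by
  refine (Polynomial.natDegree_C_mul_le _ _).trans ?_
  rw [descPochhammer_natDegree]

/-- the truncated logarithm -/
noncomputable def lg (p : ℕ) [Fact p.Prime] {B : Type*} [Ring B] [Algebra (ZMod p) B] (y : B) : B :=
  ∑ n ∈ range p, (binPoly p n).coeff 1 • y ^ n

lemma lg_mem (x : ℕ → B) (j : ℕ) : lg p (x j) ∈ Wd p x 1 := by
  refine Submodule.sum_mem _ (fun n _ => ?_)
  rcases Nat.eq_zero_or_pos n with h | h
  · subst h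
    have : (binPoly p 0).coeff 1 = 0 :=
      Polynomial.coeff_eq_zero_of_natDegree_lt (lt_of_le_of_lt (binPoly_natDegree 0) one_pos)
    rw [this, zero_smul]; exact zero_mem _
  · exact Submodule.smul_mem _ _ (Wd_anti x h (Wd_pow x j n))

lemma factor_mem (x : ℕ → B) (j : ℕ) :
    (fun ω : ZMod p => (1 + x j) ^ ω.val - 1 - ω • lg p (x j)) ∈ Ed p x 2 := by
  have h2 := hp.out.two_le
  have key : (fun ω : ZMod p => (1 + x j) ^ ω.val - 1 - ω • lg p (x j)) =
      ∑ d ∈ Ico 2 p, ∑ n ∈ range p, fun ω : ZMod p => ω ^ d • ((binPoly p n).coeff d • x j ^ n) := by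
    funext ω
    have e1 : (1 + x j) ^ ω.val = ∑ n ∈ range p, (ω.val.choose n : ZMod p) • x j ^ n := by
      rw [add_comm, (Commute.one_right (x j)).add_pow]
      have hsub : range (ω.val + 1) ⊆ range p := range_subset_range.2 (ZMod.val_lt ω)
      rw [← Finset.sum_subset hsub]
      · refine Finset.sum_congr rfl (fun n _ => ?_)
        rw [one_pow, mul_one, Nat.cast_smul_eq_nsmul, nsmul_eq_mul, Nat.cast_comm]
      · intro n _ hn
        rw [Nat.choose_eq_zero_of_lt (by simpa using hn)]; simp
    have e2 : ∀ n ∈ range p, (ω.val.choose n : ZMod p) • x j ^ n =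
        ∑ d ∈ range p, ω ^ d • ((binPoly p n).coeff d • x j ^ n) := by
      intro n hn
      have hn' := mem_range.1 hn
      rw [← binPoly_eval hn', ZMod.natCast_zmod_val,
        Polynomial.eval_eq_sum_range' (lt_of_le_of_lt (binPoly_natDegree n) hn'), Finset.sum_smul]
      refine Finset.sum_congr rfl (fun d _ => ?_)
      rw [smul_smul, mul_comm]
    have e0 : ∑ n ∈ range p, (binPoly p n).coeff 0 • x j ^ n = 1 := by
      rw [Finset.sum_eq_single 0]
      · rw [Polynomial.coeff_zero_eq_eval_zero]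
        have := binPoly_eval (p := p) (n := 0) (by omega) 0
        rw [Nat.cast_zero] at this
        rw [this]; simp
      · intro n hn hn0
        rw [Polynomial.coeff_zero_eq_eval_zero]
        have := binPoly_eval (p := p) (mem_range.1 hn) 0
        rw [Nat.cast_zero] at this
        rw [this, Nat.choose_eq_zero_of_lt (by omega)]; simp
      · intro h; exact absurd (mem_range.2 (by omega)) h
    rw [e1, Finset.sum_congr rfl e2, Finset.sum_comm, Finset.range_eq_Ico,
      Finset.sum_eq_sum_Ico_succ_bot (by omega : 0 < p),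
      Finset.sum_eq_sum_Ico_succ_bot (by omega : 0 + 1 < p), ← Finset.range_eq_Ico]
    simp only [pow_zero, one_smul, e0, zero_add, pow_one, ← Finset.smul_sum, Finset.sum_apply]
    rw [lg]
    abel
  rw [key]
  refine Submodule.sum_mem _ (fun d hd => Submodule.sum_mem _ (fun n _ => ?_))
  by_cases hdn : d ≤ n
  · exact Submodule.subset_span ⟨d, _, (mem_Ico.1 hd).1,
      Submodule.smul_mem _ _ (Wd_anti x hdn (Wd_pow x j n)), rfl⟩
  · have : (binPoly p n).coeff d = 0 :=
      Polynomial.coeff_eq_zero_of_natDegree_lt (lt_of_le_of_lt (binPoly_natDegree n) (by omega))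
    simp only [this, zero_smul, smul_zero]
    exact zero_mem _

lemma prod_mem (x : ℕ → B) (J : ℕ) :
    (fun ω : ZMod p => ((List.range J).map (fun j => (1 + x j) ^ ω.val)).prod - 1
      - ω • ∑ j ∈ range J, lg p (x j)) ∈ Ed p x 2 := by
  have lin : ∀ u ∈ Wd p x 1, (fun ω : ZMod p => ω • u) ∈ Ed p x 1 := fun u hu =>
    Submodule.subset_span ⟨1, u, le_rfl, hu, by simp⟩
  induction J with
  | zero => simp only [List.range_zero, List.map_nil, List.prod_nil, sub_self, range_zero,
      sum_empty, smul_zero]; exact zero_mem _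
  | succ J ih =>
    have hf := factor_mem (p := p) x J
    have l1 := lin _ (lg_mem (p := p) x J)
    have l2 := lin _ (Submodule.sum_mem (Wd p x 1) (fun j (_ : j ∈ range J) => lg_mem x j))
    have m1 := Ed_mul x (add_mem (Ed_anti x (by omega : 1 ≤ 2) ih) l2)
      (add_mem (Ed_anti x (by omega : 1 ≤ 2) hf) l1)
    have := add_mem (add_mem ih hf) m1
    convert this using 1
    funext ω
    simp only [List.range_succ, List.map_append, List.prod_append, List.map_cons, List.map_nil,
      List.prod_cons, List.prod_nil, mul_one, Finset.sum_range_succ, smul_add, Pi.add_apply,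
      Pi.mul_apply]
    noncomm_ring

lemma theta_mem (x : ℕ → B) {f : ZMod p → B} (hf : f ∈ Ed p x 2) :
    ∑ ω : ZMod p, ω ^ (p - 2) • f ω ∈ Wd p x p := by
  have h2 := hp.out.two_le
  induction hf using Submodule.span_induction with
  | mem f hf =>
    obtain ⟨d, u, h1, hu, rfl⟩ := hf
    simp only [smul_smul, ← pow_add, ← Finset.sum_smul]
    by_cases hd : p ≤ d
    · exact Submodule.smul_mem _ _ (Wd_anti x hd hu)
    · rw [sum_pow_zmod _ (by omega), if_neg, zero_smul]
      · exact zero_mem _
      · rintro ⟨c, hc⟩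
        have h3 : (p - 1) * 1 < (p - 1) * c := by omega
        have h4 : (p - 1) * c < (p - 1) * 2 := by omega
        have := Nat.lt_of_mul_lt_mul_left h3
        have := Nat.lt_of_mul_lt_mul_left h4
        omega
  | zero => simp
  | add a b _ _ ha hb => simp only [Pi.add_apply, smul_add, Finset.sum_add_distrib]; exact add_mem ha hb
  | smul r a _ ha =>
    simp only [Pi.smul_apply, smul_comm _ r, ← Finset.smul_sum]; exact Submodule.smul_mem _ _ ha

lemma sum_pow_pred : ∑ ω : ZMod p, ω ^ (p - 2) * ω = -1 := by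
  have h2 := hp.out.two_le
  have : ∀ ω : ZMod p, ω ^ (p - 2) * ω = ω ^ (p - 1) := fun ω => by
    rw [← pow_succ]; congr 1; omega
  simp only [this]
  rw [sum_pow_zmod _ (by omega), if_pos dvd_rfl]

/-- the averaged expansion -/
theorem expansion (x : ℕ → B) (J : ℕ) :
    ∑ ω : ZMod p, ω ^ (p - 2) • (((List.range J).map (fun j => (1 + x j) ^ ω.val)).prod - 1)
      + ∑ j ∈ range J, lg p (x j) ∈ Wd p x p := by
  have := theta_mem x (prod_mem (p := p) x J)
  convert this using 1
  simp only [smul_sub _ _ (_ • _), Finset.sum_sub_distrib, smul_smul, ← Finset.sum_smul,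
    sum_pow_pred]
  simp

end expand

section poly
variable {B : Type*} [Ring B] [Algebra (ZMod p) B] {A : Type*} [CommGroup A]

/-- functions on a commutative group whose iterated differences go down a filtration, each
difference in the direction `c` gaining `s c` -/
def Poly (F : ℕ → Submodule (ZMod p) B) (s : A → ℕ) : ℕ → ℕ → (A → B) → Prop
  | 0, n, f => ∀ x, f x ∈ F n
  | r + 1, n, f => (∀ x, f x ∈ F n) ∧ ∀ c, Poly F s r (n + s c) (fun x => f (x * c) - f x)

variable {F : ℕ → Submodule (ZMod p) B} {s : A → ℕ}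

lemma Poly.mem : ∀ {r n : ℕ} {f : A → B}, Poly F s r n f → ∀ x, f x ∈ F n
  | 0, _, _, h => h
  | _ + 1, _, _, h => h.1

lemma Poly.pred : ∀ {r n : ℕ} {f : A → B}, Poly F s (r + 1) n f → Poly F s r n f
  | 0, _, _, h => h.1
  | _ + 1, _, _, h => ⟨h.1, fun c => (h.2 c).pred⟩

lemma Poly.add : ∀ {r n : ℕ} {f g : A → B}, Poly F s r n f → Poly F s r n g →
    Poly F s r n (fun x => f x + g x)
  | 0, _, _, _, h, h' => fun x => add_mem (h x) (h' x)
  | _ + 1, _, _, _, h, h' => ⟨fun x => add_mem (h.1 x) (h'.1 x), fun c => by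
      have := (h.2 c).add (h'.2 c)
      convert this using 2
      beta_reduce
      abel⟩

lemma Poly.shift : ∀ {r n : ℕ} {f : A → B} (c : A), Poly F s r n f →
    Poly F s r n (fun x => f (x * c))
  | 0, _, _, c, h => fun x => h (x * c)
  | _ + 1, _, _, c, h => ⟨fun x => h.1 (x * c), fun c' => by
      have := (h.2 c').shift c
      convert this using 3; rw [mul_right_comm]⟩

lemma Poly.mul (hmul : ∀ {n n' : ℕ} {x y : B}, x ∈ F n → y ∈ F n' → x * y ∈ F (n + n')) :
    ∀ {r n n' : ℕ} {f g : A → B}, Poly F s r n f → Poly F s r n' g →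
    Poly F s r (n + n') (fun x => f x * g x)
  | 0, _, _, _, _, h, h' => fun x => hmul (h x) (h' x)
  | _ + 1, n, n', f, g, h, h' => ⟨fun x => hmul (h.1 x) (h'.1 x), fun c => by
      have h1 := Poly.mul hmul (h.2 c) (h'.pred.shift c)
      have h2 := Poly.mul hmul h.pred (h'.2 c)
      rw [show n + s c + n' = n + n' + s c by omega] at h1
      rw [show n + (n' + s c) = n + n' + s c by omega] at h2
      have := h1.add h2
      convert this using 2; noncomm_ring⟩

lemma Poly.iter (c : A) : ∀ (k : ℕ) {r n : ℕ} {f : A → B}, Poly F s (r + k) n f →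
    Poly F s r (n + s c * k) (((LinearMap.funLeft (ZMod p) B (fun x : A => x * c) - 1) ^ k) f)
  | 0, _, _, _, h => by simpa using h
  | k + 1, r, n, f, h => by
      have := Poly.iter c k (r := r) (h.2 c)
      rw [pow_succ, Module.End.mul_apply, show n + s c * (k + 1) = n + s c + s c * k by ring]
      exact this

lemma Poly.sum (c : A) {r n : ℕ} {f : A → B} (h : Poly F s (r + (p - 1)) n f) :
    Poly F s r (n + s c * (p - 1)) (fun x => ∑ i ∈ range p, f (x * c ^ i)) := by
  have := Poly.iter c (p - 1) h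
  rw [geom_charp] at this
  convert this using 1
  funext x
  rw [LinearMap.sum_apply, Finset.sum_apply]
  refine Finset.sum_congr rfl (fun i hi => ?_)
  clear hi
  generalize f = g
  induction i generalizing g with
  | zero => simp
  | succ i ih =>
    rw [pow_succ (LinearMap.funLeft _ _ _), Module.End.mul_apply, ← ih]
    simp [pow_succ, mul_assoc]

lemma Poly.zero : ∀ {r n : ℕ}, Poly F s r n (fun _ : A => (0 : B))
  | 0, _ => fun _ => zero_mem _
  | _ + 1, _ => ⟨fun _ => zero_mem _, fun _ => by simpa using Poly.zero⟩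

lemma Poly.const {r n : ℕ} {u : B} (hu : u ∈ F n) : Poly F s r n (fun _ : A => u) := by
  cases r with
  | zero => exact fun _ => hu
  | succ r => exact ⟨fun _ => hu, fun _ => by simpa using Poly.zero⟩

lemma Poly.smul (q : ZMod p) : ∀ {r n : ℕ} {f : A → B}, Poly F s r n f →
    Poly F s r n (fun x => q • f x)
  | 0, _, _, h => fun x => Submodule.smul_mem _ _ (h x)
  | _ + 1, _, _, h => ⟨fun x => Submodule.smul_mem _ _ (h.1 x), fun c => by
      have := (h.2 c).smul q
      simpa only [smul_sub] using this⟩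

lemma Poly.anti (hF : ∀ {n n' : ℕ}, n ≤ n' → F n' ≤ F n) : ∀ {r n n' : ℕ} {f : A → B}, n ≤ n' →
    Poly F s r n' f → Poly F s r n f
  | 0, _, _, _, hn, h => fun x => hF hn (h x)
  | _ + 1, _, _, _, hn, h => ⟨fun x => hF hn (h.1 x), fun c => (h.2 c).anti hF (by omega)⟩

lemma Poly.of_Wd (hF : ∀ {n n' : ℕ}, n ≤ n' → F n' ≤ F n)
    (hmul : ∀ {n n' : ℕ} {x y : B}, x ∈ F n → y ∈ F n' → x * y ∈ F (n + n'))
    (h1 : (1 : B) ∈ F 0) (x : ℕ → A → B) {r K d : ℕ} (hx : ∀ j, Poly F s r K (x j))
    {h : A → B} (hh : h ∈ Wd p x d) : Poly F s r (d * K) h := by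
  induction hh using Submodule.span_induction with
  | mem h hh =>
    obtain ⟨L, hL, rfl⟩ := hh
    have : ∀ L : List ℕ, Poly F s r (L.length * K) (L.map x).prod := by
      intro L
      induction L with
      | nil =>
        rw [List.length_nil, Nat.zero_mul]
        exact Poly.const h1
      | cons j L ih =>
        have := Poly.mul hmul (hx j) ih
        rw [List.map_cons, List.prod_cons, List.length_cons, add_mul, one_mul, add_comm]
        exact this
    exact (this L).anti hF (Nat.mul_le_mul_right K hL)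
  | zero => exact Poly.zero
  | add a b _ _ ha hb => exact ha.add hb
  | smul q a _ ha => exact ha.smul q

end poly

end Pool.Agent.Lib.MP_6d9b00_al.W34
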