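import Mathlib

/-!
A form of Jennings' theorem on dimension subgroups in characteristic `p`.
-/

set_option autoImplicit false
set_option linter.unusedSectionVars false
set_option linter.style.haveILetI false

namespace Pool.Agent.Lib.MP_6d9b00_al.W34

open scoped commutatorElement

variable {p : ℕ} [hp : Fact p.Prime] {P : Type*} [Group P]

/-- the group algebra over the field with `p` elements -/
abbrev GA (p : ℕ) (P : Type*) [Group P] := MonoidAlgebra (ZMod p) P

/-- a group element inside the group algebra -/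
noncomputable def og (p : ℕ) {P : Type*} [Group P] : P →* GA p P := MonoidAlgebra.of (ZMod p) P

/-- linear extension of a function on the group -/
noncomputable def linExt {B : Type*} [AddCommGroup B] [Module (ZMod p) B] (f : P → B) :
    GA p P →ₗ[ZMod p] B :=
  (Finsupp.linearCombination (ZMod p) f).comp (MonoidAlgebra.coeffLinearEquiv (ZMod p)).toLinearMap

lemma linExt_og {B : Type*} [AddCommGroup B] [Module (ZMod p) B] (f : P → B) (g : P) :
    linExt (p := p) f (og p g) = f g := by
  simp [linExt, og, MonoidAlgebra.of_apply]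

lemma lin_ext {B : Type*} [AddCommGroup B] [Module (ZMod p) B] (f f' : GA p P →ₗ[ZMod p] B)
    (h : ∀ g, f (og p g) = f' (og p g)) (y : GA p P) : f y = f' y := by
  induction y using MonoidAlgebra.induction_on with
  | of g => exact h g
  | add a b ha hb => simp [ha, hb]
  | smul r a ha => simp [ha]

/-- product of the factors `g - 1` along a list of weighted letters -/
noncomputable def wd (p : ℕ) {P : Type*} [Group P] (L : List (P × ℕ)) : GA p P :=
  (L.map (fun q => og p q.1 - 1)).prod

/-- the filtration of the group algebra attached to a filtration `D` of the group, using only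
letters from `H` -/
noncomputable def Fil (p : ℕ) {P : Type*} [Group P] (D : ℕ → Subgroup P) (H : Subgroup P) (n : ℕ) :
    Submodule (ZMod p) (GA p P) :=
  Submodule.span (ZMod p)
    {y | ∃ L : List (P × ℕ), (∀ q ∈ L, q.1 ∈ H ∧ q.1 ∈ D q.2) ∧ n ≤ (L.map Prod.snd).sum ∧
      y = wd p L}

section basic
variable {D : ℕ → Subgroup P} {H : Subgroup P}

lemma Fil_anti {n n' : ℕ} (h : n ≤ n') : Fil p D H n' ≤ Fil p D H n := by
  apply Submodule.span_mono
  rintro y ⟨L, h1, h2, h3⟩
  exact ⟨L, h1, h.trans h2, h3⟩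

lemma Fil_one : (1 : GA p P) ∈ Fil p D H 0 :=
  Submodule.subset_span ⟨[], by simp, by simp, by simp [wd]⟩

lemma Fil_letter {g : P} {w : ℕ} (h1 : g ∈ H) (h2 : g ∈ D w) : og p g - 1 ∈ Fil p D H w :=
  Submodule.subset_span ⟨[(g, w)], by simp [h1, h2], by simp, by simp [wd]⟩

lemma Fil_mul {n n' : ℕ} {x y : GA p P} (hx : x ∈ Fil p D H n) (hy : y ∈ Fil p D H n') :
    x * y ∈ Fil p D H (n + n') := by
  induction hx using Submodule.span_induction with
  | mem x hx =>
    induction hy using Submodule.span_induction with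
    | mem y hy =>
      obtain ⟨L, h1, h2, rfl⟩ := hx
      obtain ⟨L', h1', h2', rfl⟩ := hy
      refine Submodule.subset_span ⟨L ++ L', ?_, ?_, by simp [wd]⟩
      · intro q hq
        rcases List.mem_append.1 hq with h | h
        · exact h1 q h
        · exact h1' q h
      · simp only [List.map_append, List.sum_append]; omega
    | zero => simp
    | add a b _ _ ha hb => rw [mul_add]; exact add_mem ha hb
    | smul r a _ ha => rw [mul_smul_comm]; exact Submodule.smul_mem _ _ ha
  | zero => simp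
  | add a b _ _ ha hb => rw [add_mul]; exact add_mem ha hb
  | smul r a _ ha => rw [smul_mul_assoc]; exact Submodule.smul_mem _ _ ha

lemma Fil_mul' {n n' s : ℕ} {x y : GA p P} (hx : x ∈ Fil p D H n) (hy : y ∈ Fil p D H n')
    (hs : s ≤ n + n') : x * y ∈ Fil p D H s := Fil_anti hs (Fil_mul hx hy)

lemma Fil_og {g : P} (h1 : g ∈ H) (h2 : g ∈ D 0) : og p g ∈ Fil p D H 0 := by
  have := add_mem (Fil_letter (p := p) h1 h2) (Fil_one (p := p) (D := D) (H := H))
  simpa using this

/-- conjugation by an element that raises the weight of letters by `s` -/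
lemma Fil_conj (hanti : ∀ {a b}, a ≤ b → D b ≤ D a) (c : P) (s : ℕ)
    (hc : ∀ g w, g ∈ H → g ∈ D w → ⁅c, g⁆ ∈ H ∧ ⁅c, g⁆ ∈ D (w + s))
    {n : ℕ} {u : GA p P} (hu : u ∈ Fil p D H n) :
    og p c * u * og p c⁻¹ - u ∈ Fil p D H (n + s) := by
  have hcc : og p c⁻¹ * og p c = 1 := by rw [← map_mul]; simp
  have hcc' : og p c * og p c⁻¹ = 1 := by rw [← map_mul]; simp
  have key : ∀ L : List (P × ℕ), (∀ q ∈ L, q.1 ∈ H ∧ q.1 ∈ D q.2) →
      wd p L ∈ Fil p D H (L.map Prod.snd).sum ∧
      og p c * wd p L * og p c⁻¹ - wd p L ∈ Fil p D H ((L.map Prod.snd).sum + s) := by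
    intro L
    induction L with
    | nil => intro _; simp [wd, Fil_one, hcc']
    | cons q L ih =>
      intro hL
      obtain ⟨ih1, ih2⟩ := ih (fun q' hq' => hL q' (List.mem_cons_of_mem _ hq'))
      obtain ⟨hq1, hq2⟩ := hL q List.mem_cons_self
      have hl := Fil_letter (p := p) hq1 hq2
      have hwd : wd p (q :: L) = (og p q.1 - 1) * wd p L := by simp [wd]
      obtain ⟨hh1, hh2⟩ := hc q.1 q.2 hq1 hq2
      have hx : og p c * (og p q.1 - 1) * og p c⁻¹ - (og p q.1 - 1) ∈ Fil p D H (q.2 + s) := by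
        have : og p c * (og p q.1 - 1) * og p c⁻¹ - (og p q.1 - 1)
            = (og p ⁅c, q.1⁆ - 1) * og p q.1 := by
          have e : og p ⁅c, q.1⁆ * og p q.1 = og p c * og p q.1 * og p c⁻¹ := by
            simp only [← map_mul]; congr 1; group
          rw [sub_mul, e, mul_sub, sub_mul, mul_one, hcc']; noncomm_ring
        rw [this]
        exact Fil_mul' (Fil_letter hh1 hh2) (Fil_og hq1 (hanti (Nat.zero_le _) hq2)) (by omega)
      have hy : og p c * wd p L * og p c⁻¹ ∈ Fil p D H (L.map Prod.snd).sum := by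
        have := add_mem (Fil_anti (Nat.le_add_right _ s) ih2) ih1
        simpa using this
      refine ⟨?_, ?_⟩
      · rw [hwd]; simpa using Fil_mul hl ih1
      · have : og p c * wd p (q :: L) * og p c⁻¹ - wd p (q :: L) =
            (og p c * (og p q.1 - 1) * og p c⁻¹ - (og p q.1 - 1)) * (og p c * wd p L * og p c⁻¹)
              + (og p q.1 - 1) * (og p c * wd p L * og p c⁻¹ - wd p L) := by
          rw [hwd]
          have : og p c * (og p q.1 - 1) * og p c⁻¹ * (og p c * wd p L * og p c⁻¹)
              = og p c * ((og p q.1 - 1) * wd p L) * og p c⁻¹ := by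
            calc _ = og p c * (og p q.1 - 1) * (og p c⁻¹ * og p c) * wd p L * og p c⁻¹ := by
                  noncomm_ring
              _ = _ := by rw [hcc]; noncomm_ring
          rw [sub_mul (og p c * (og p q.1 - 1) * og p c⁻¹), this]; noncomm_ring
        rw [this]
        refine add_mem (Fil_mul' hx hy ?_) (Fil_mul' hl ih2 ?_) <;> simp <;> omega
  induction hu using Submodule.span_induction with
  | mem x hx =>
    obtain ⟨L, h1, h2, rfl⟩ := hx
    exact Fil_anti (by omega) (key L h1).2
  | zero => simp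
  | add a b _ _ ha hb =>
    have := add_mem ha hb
    convert this using 1; noncomm_ring
  | smul r a _ ha =>
    have := Submodule.smul_mem _ r ha
    convert this using 1
    simp [smul_sub]

end basic

/-- hypotheses on the filtration -/
structure IsFil (p : ℕ) {P : Type*} [Group P] (D : ℕ → Subgroup P) : Prop where
  anti : ∀ {a b}, a ≤ b → D b ≤ D a
  zero_le : D 0 ≤ D 1
  comm : ∀ a b g h, g ∈ D a → h ∈ D b → ⁅g, h⁆ ∈ D (a + b)
  pow : ∀ a g, g ∈ D a → g ^ p ∈ D (p * a)

lemma exists_addHom_one' {W : Type*} [AddCommGroup W] [Module (ZMod p) W] {v : W}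
    (hv : v ≠ 0) : ∃ f : W →+ ZMod p, f v = 1 := by
  obtain ⟨f, hf⟩ := Module.Projective.exists_dual_eq_one (ZMod p) hv
  exact ⟨f.toAddMonoidHom, hf⟩

lemma exists_addHom_one {W : Type*} [AddCommGroup W] (hexp : ∀ x : W, p • x = 0) {v : W}
    (hv : v ≠ 0) : ∃ f : W →+ ZMod p, f v = 1 :=
  @exists_addHom_one' p _ W _ (AddCommGroup.zmodModule hexp) v hv

/-- a character of order `p` on `H` -/
lemma exists_char {D : ℕ → Subgroup P} (hD : IsFil p D) {H : Subgroup P} {w : ℕ} (hw : 1 ≤ w)
    (h1 : H ≤ D w) (h2 : ¬ H ≤ D (w + 1)) :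
    ∃ χ : H →* Multiplicative (ZMod p), (∃ g0 : H, χ g0 = Multiplicative.ofAdd 1) ∧
      ∀ g : H, (g : P) ∈ D (w + 1) → χ g = 1 := by
  set K : Subgroup H := (D (w + 1)).subgroupOf H with hK
  have hcomm : ∀ a b : H, ⁅a, b⁆ ∈ K := by
    intro a b
    rw [hK, Subgroup.mem_subgroupOf]
    have := hD.comm w w a b (h1 a.2) (h1 b.2)
    exact hD.anti (by omega) this
  haveI hn : K.Normal := ⟨fun x hx g => by
    have : g * x * g⁻¹ = ⁅g, x⁆ * x := by group
    rw [this]; exact mul_mem (hcomm g x) hx⟩
  let Q := H ⧸ K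
  have hQ : ∀ a b : Q, a * b = b * a := by
    intro a b
    obtain ⟨a, rfl⟩ := QuotientGroup.mk_surjective a
    obtain ⟨b, rfl⟩ := QuotientGroup.mk_surjective b
    rw [← QuotientGroup.mk_mul, ← QuotientGroup.mk_mul, QuotientGroup.eq]
    have : (a * b)⁻¹ * (b * a) = ⁅b⁻¹, a⁻¹⁆ := by group
    rw [this]; exact hcomm _ _
  letI : CommGroup Q := { (inferInstance : Group Q) with mul_comm := hQ }
  have hexp : ∀ x : Additive Q, p • x = 0 := by
    intro x
    obtain ⟨a, ha⟩ := QuotientGroup.mk_surjective (Additive.toMul x)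
    have : (Additive.toMul x) ^ p = 1 := by
      rw [← ha, ← QuotientGroup.mk_pow, QuotientGroup.eq_one_iff, hK, Subgroup.mem_subgroupOf]
      have := hD.pow w a (h1 a.2)
      refine hD.anti ?_ this
      have := hp.out.two_le
      nlinarith
    exact this
  obtain ⟨g0, hg0, hg0'⟩ : ∃ g ∈ H, g ∉ D (w + 1) := by
    by_contra hcon
    push Not at hcon
    exact h2 hcon
  have hne : (Additive.ofMul (QuotientGroup.mk (⟨g0, hg0⟩ : H) : Q)) ≠ 0 := by
    intro h
    have : (QuotientGroup.mk (⟨g0, hg0⟩ : H) : Q) = 1 := h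
    rw [QuotientGroup.eq_one_iff, hK, Subgroup.mem_subgroupOf] at this
    exact hg0' this
  obtain ⟨f, hf⟩ := exists_addHom_one hexp hne
  refine ⟨(AddMonoidHom.toMultiplicativeRight f).comp (QuotientGroup.mk' K),
    ⟨⟨g0, hg0⟩, ?_⟩, ?_⟩
  · exact congrArg Multiplicative.ofAdd hf
  · intro g hg
    have : (QuotientGroup.mk g : Q) = 1 := by
      rw [QuotientGroup.eq_one_iff, hK, Subgroup.mem_subgroupOf]; exact hg
    rw [MonoidHom.comp_apply, QuotientGroup.mk'_apply, this, map_one]

/-- the inductive step: projection to a subgroup of index `p` -/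
lemma proj_step {D : ℕ → Subgroup P} (hD : IsFil p D) {H : Subgroup P} {w : ℕ}
    (h1 : H ≤ D w) (χ : H →* Multiplicative (ZMod p)) (g0 : H)
    (hg0 : χ g0 = Multiplicative.ofAdd 1) (hχ : ∀ g : H, (g : P) ∈ D (w + 1) → χ g = 1) :
    ∃ π : GA p P →ₗ[ZMod p] GA p P, (∀ g ∈ χ.ker.map H.subtype, π (og p g) = og p g) ∧
      ∀ n, ∀ y ∈ Fil p D H n, π y ∈ Fil p D (χ.ker.map H.subtype) n := by
  classical
  set H' := χ.ker.map H.subtype with hH'
  have memH' : ∀ g : H, χ g = 1 → (g : P) ∈ H' := fun g hg => ⟨g, hg, rfl⟩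
  have H'le : ∀ g ∈ H', g ∈ H := by rintro _ ⟨g, _, rfl⟩; exact g.2
  let c : P → ZMod p := fun g => if h : g ∈ H then Multiplicative.toAdd (χ ⟨g, h⟩) else 0
  have c_mul : ∀ h ∈ H', ∀ g, c (h * g) = c g := by
    rintro _ ⟨h, hh, rfl⟩ g
    by_cases hg : g ∈ H
    · have hg' : (h : P) * g ∈ H := mul_mem h.2 hg
      have : (⟨(h : P) * g, hg'⟩ : H) = h * ⟨g, hg⟩ := rfl
      have hh' : χ h = 1 := hh
      simp only [c, Subgroup.coe_subtype, dif_pos hg, dif_pos hg', this, map_mul, hh', one_mul]
    · have hg' : ¬ (h : P) * g ∈ H := fun hc => hg ((H.mul_mem_cancel_left h.2).1 hc)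
      simp only [c, Subgroup.coe_subtype, dif_neg hg, dif_neg hg']
  have c_conj : ∀ g, c ((g0 : P) * g * (g0 : P)⁻¹) = c g := by
    intro g
    by_cases hg : g ∈ H
    · have hg' : (g0 : P) * g * (g0 : P)⁻¹ ∈ H := mul_mem (mul_mem g0.2 hg) (inv_mem g0.2)
      have : (⟨(g0 : P) * g * (g0 : P)⁻¹, hg'⟩ : H) = g0 * ⟨g, hg⟩ * g0⁻¹ := rfl
      simp only [c, dif_pos hg, dif_pos hg', this, map_mul, map_inv]
      rw [mul_comm (χ g0), mul_assoc, mul_inv_cancel, mul_one]
    · have hg' : ¬ (g0 : P) * g * (g0 : P)⁻¹ ∈ H := fun hc =>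
        hg ((H.mul_mem_cancel_left g0.2).1 ((H.mul_mem_cancel_right (inv_mem g0.2)).1 hc))
      simp only [c, dif_neg hg, dif_neg hg']
  have c_pow : ∀ j : ℕ, c ((g0 : P) ^ j) = j := by
    intro j
    have hj : (g0 : P) ^ j ∈ H := pow_mem g0.2 j
    have : (⟨(g0 : P) ^ j, hj⟩ : H) = g0 ^ j := rfl
    simp only [c, dif_pos hj, this, map_pow, hg0]
    simp
  let π : GA p P →ₗ[ZMod p] GA p P := linExt (fun g => og p (g * ((g0 : P) ^ (c g).val)⁻¹))
  have π_og : ∀ g, π (og p g) = og p (g * ((g0 : P) ^ (c g).val)⁻¹) := fun g => linExt_og _ g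
  have π_mul : ∀ h ∈ H', ∀ y, π (og p h * y) = og p h * π y := by
    intro h hh y
    refine lin_ext (π.comp (LinearMap.mulLeft _ (og p h))) ((LinearMap.mulLeft _ (og p h)).comp π)
      (fun g => ?_) y
    simp only [LinearMap.comp_apply, LinearMap.mulLeft_apply, ← map_mul, π_og, c_mul h hh,
      mul_assoc]
  have π_conj : ∀ y, π (og p (g0 : P) * y * og p (g0 : P)⁻¹) =
      og p (g0 : P) * π y * og p (g0 : P)⁻¹ := by
    intro y
    refine lin_ext (π.comp ((LinearMap.mulRight _ (og p (g0 : P)⁻¹)).comp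
      (LinearMap.mulLeft _ (og p (g0 : P)))))
      (((LinearMap.mulRight _ (og p (g0 : P)⁻¹)).comp
      (LinearMap.mulLeft _ (og p (g0 : P)))).comp π) (fun g => ?_) y
    simp only [LinearMap.comp_apply, LinearMap.mulLeft_apply, LinearMap.mulRight_apply,
      ← map_mul, π_og, c_conj]
    congr 1
    group
  set x : GA p P := og p (g0 : P) - 1 with hx
  have hsmall : ∀ e j : ℕ, j + e < p → π (og p ((g0 : P) ^ j) * x ^ e) = if e = 0 then 1 else 0 := by
    intro e
    induction e with
    | zero =>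
      intro j hj
      simp only [pow_zero, mul_one, π_og, c_pow, if_true]
      rw [ZMod.val_natCast_of_lt (by omega)]
      simp
    | succ e ih =>
      intro j hj
      have : og p ((g0 : P) ^ j) * x ^ (e + 1) =
          og p ((g0 : P) ^ (j + 1)) * x ^ e - og p ((g0 : P) ^ j) * x ^ e := by
        rw [pow_succ' x, pow_succ, map_mul, hx]; noncomm_ring
      rw [this, map_sub, ih _ (by omega), ih _ (by omega)]
      simp
  have hg0p : (g0 : P) ^ p ∈ H' := by
    have := memH' (g0 ^ p) (by rw [map_pow, hg0, ← ofAdd_nsmul]; simp)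
    simpa using this
  have hxp : x ^ p = og p ((g0 : P) ^ p) - 1 := by
    rw [hx, map_pow]
    haveI : CharP (GA p P) p := charP_of_injective_algebraMap
      (algebraMap (ZMod p) (GA p P)).injective p
    rw [sub_pow_char_of_commute p (Commute.one_right _), one_pow]
  have hbase : ∀ e : ℕ, π (x ^ e) ∈ Fil p D H' (e * w) := by
    intro e
    induction e using Nat.strong_induction_on with
    | _ e ih =>
      by_cases he : e < p
      · have := hsmall e 0 (by omega)
        simp only [pow_zero, map_one, one_mul] at this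
        rw [this]
        split_ifs with h0
        · subst h0; simpa using Fil_one
        · exact zero_mem _
      · have hpos := hp.out.pos
        obtain ⟨e', rfl⟩ : ∃ e', e = p + e' := ⟨e - p, by omega⟩
        rw [pow_add, hxp, sub_mul, one_mul, map_sub, π_mul _ hg0p]
        have : og p ((g0 : P) ^ p) * π (x ^ e') - π (x ^ e') =
            (og p ((g0 : P) ^ p) - 1) * π (x ^ e') := by noncomm_ring
        rw [this]
        refine Fil_mul' (Fil_letter hg0p (hD.pow w _ (h1 g0.2))) (ih e' (by omega)) ?_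
        rw [add_mul]
  let G : ℕ → GA p P → Prop := fun n y => ∀ e : ℕ, π (y * x ^ e) ∈ Fil p D H' (n + e * w)
  have G_anti : ∀ {n n' y}, n ≤ n' → G n' y → G n y := fun h hy e => Fil_anti (by omega) (hy e)
  have G_add : ∀ {n y y'}, G n y → G n y' → G n (y + y') := fun hy hy' e => by
    rw [add_mul, map_add]; exact add_mem (hy e) (hy' e)
  have G_letter : ∀ {n y} h w', h ∈ H' → h ∈ D w' → G n y → G (n + w') ((og p h - 1) * y) := by
    intro n y h w' hh hh' hy e
    have : π ((og p h - 1) * y * x ^ e) = (og p h - 1) * π (y * x ^ e) := by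
      rw [mul_assoc, sub_mul, one_mul, map_sub, π_mul h hh]; noncomm_ring
    rw [this]
    exact Fil_mul' (Fil_letter hh hh') (hy e) (by omega)
  have G_right : ∀ {n y}, G n y → G (n + w) (y * x) := by
    intro n y hy e
    rw [mul_assoc, ← pow_succ']
    exact Fil_anti (by rw [add_mul]; omega) (hy (e + 1))
  have hcc : og p (g0 : P)⁻¹ * og p (g0 : P) = 1 := by rw [← map_mul]; simp
  have hcomm : Commute x (og p (g0 : P)⁻¹) := by
    have : Commute (og p (g0 : P)) (og p (g0 : P)⁻¹) := by
      unfold Commute SemiconjBy; rw [← map_mul, ← map_mul]; simp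
    exact this.sub_left (Commute.one_left _)
  have G_conj : ∀ {n y}, G n y → G (n + w) (og p (g0 : P) * y * og p (g0 : P)⁻¹ - y) := by
    intro n y hy e
    have : (og p (g0 : P) * y * og p (g0 : P)⁻¹ - y) * x ^ e =
        og p (g0 : P) * (y * x ^ e) * og p (g0 : P)⁻¹ - y * x ^ e := by
      rw [sub_mul, mul_assoc _ _ (x ^ e), ← (hcomm.pow_left e).eq]; noncomm_ring
    rw [this, map_sub, π_conj]
    refine Fil_anti (by omega) (Fil_conj hD.anti (g0 : P) w ?_ (hy e))
    intro g w' hg hg'
    refine ⟨?_, by rw [add_comm]; exact hD.comm _ _ _ _ (h1 g0.2) hg'⟩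
    have := memH' ⁅g0, ⟨g, H'le g hg⟩⁆ (by rw [map_commutatorElement]; simp [commutatorElement_def])
    simpa [commutatorElement_def] using this
  have G_x : ∀ {n y}, G n y → G (n + w) (x * y) := by
    intro n y hy
    have : x * y = y * x + ((og p (g0 : P) * y * og p (g0 : P)⁻¹ - y) +
        (og p (g0 : P) * y * og p (g0 : P)⁻¹ - y) * x) := by
      have e : og p (g0 : P) * y * og p (g0 : P)⁻¹ * og p (g0 : P) = og p (g0 : P) * y := by
        rw [mul_assoc, hcc, mul_one]
      rw [hx, mul_sub (og p (g0 : P) * y * og p (g0 : P)⁻¹ - y), sub_mul _ y (og p (g0 : P)), e]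
      noncomm_ring
    rw [this]
    exact G_add (G_right hy) (G_add (G_conj hy) (G_anti (by omega) (G_right (G_conj hy))))
  have G_pow : ∀ {n y} (j : ℕ), G n y → G n (og p ((g0 : P) ^ j) * y) ∧
      G (n + w) ((og p ((g0 : P) ^ j) - 1) * y) := by
    intro n y j hy
    induction j with
    | zero =>
      refine ⟨by simpa using hy, fun e => ?_⟩
      simp
    | succ j ih =>
      have e1 : og p ((g0 : P) ^ (j + 1)) * y =
          x * (og p ((g0 : P) ^ j) * y) + og p ((g0 : P) ^ j) * y := by
        rw [pow_succ', map_mul, hx]; noncomm_ring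
      have e2 : (og p ((g0 : P) ^ (j + 1)) - 1) * y =
          x * (og p ((g0 : P) ^ j) * y) + (og p ((g0 : P) ^ j) - 1) * y := by
        rw [pow_succ', map_mul, hx]; noncomm_ring
      rw [e1, e2]
      exact ⟨G_add (G_anti (by omega) (G_x ih.1)) ih.1, G_add (G_x ih.1) ih.2⟩
  have G_gen : ∀ {n y} h w', h ∈ H → h ∈ D w' → G n y → G (n + w') ((og p h - 1) * y) := by
    intro n y h w' hh hh' hy
    by_cases hle : w' ≤ w
    · set j := (c h).val with hj
      have hmem : h * ((g0 : P) ^ j)⁻¹ ∈ H' := by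
        have := memH' (⟨h, hh⟩ * (g0 ^ j)⁻¹) (by
          rw [map_mul, map_inv, map_pow, hg0, ← ofAdd_nsmul, hj]
          simp [c, dif_pos hh])
        simpa using this
      have hmem' : h * ((g0 : P) ^ j)⁻¹ ∈ D w' :=
        mul_mem hh' (inv_mem (pow_mem (hD.anti hle (h1 g0.2)) j))
      have : (og p h - 1) * y = (og p (h * ((g0 : P) ^ j)⁻¹) - 1) * (og p ((g0 : P) ^ j) * y)
          + (og p ((g0 : P) ^ j) - 1) * y := by
        have e : og p (h * ((g0 : P) ^ j)⁻¹) * og p ((g0 : P) ^ j) = og p h := by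
          rw [← map_mul]; simp
        rw [← mul_assoc, sub_mul _ 1 (og p ((g0 : P) ^ j)), e]; noncomm_ring
      rw [this]
      exact G_add (G_letter _ _ hmem hmem' (G_pow j hy).1) (G_anti (by omega) (G_pow j hy).2)
    · exact G_letter h w' (memH' ⟨h, hh⟩ (hχ _ (hD.anti (by omega) hh'))) hh' hy
  have G_wd : ∀ L : List (P × ℕ), (∀ q ∈ L, q.1 ∈ H ∧ q.1 ∈ D q.2) →
      G (L.map Prod.snd).sum (wd p L) := by
    intro L
    induction L with
    | nil => intro _ e; simpa [wd] using hbase e
    | cons q L ih =>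
      intro hL
      have hwd : wd p (q :: L) = (og p q.1 - 1) * wd p L := by simp [wd]
      obtain ⟨hq1, hq2⟩ := hL q List.mem_cons_self
      rw [hwd]
      refine G_anti ?_ (G_gen q.1 q.2 hq1 hq2 (ih (fun q' hq' => hL q' (List.mem_cons_of_mem _ hq'))))
      simp; omega
  refine ⟨π, ?_, ?_⟩
  · intro g hg
    have := π_mul g hg 1
    have h1' := hsmall 0 0 (by have := hp.out.pos; omega)
    simp only [pow_zero, map_one, mul_one, if_true] at h1'
    rw [mul_one, h1', mul_one] at this
    exact this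
  · intro n y hy
    induction hy using Submodule.span_induction with
    | mem y hy =>
      obtain ⟨L, h1, h2, rfl⟩ := hy
      have := G_wd L h1 0
      simp only [pow_zero, mul_one, zero_mul, add_zero] at this
      exact Fil_anti h2 this
    | zero => simp
    | add a b _ _ ha hb => rw [map_add]; exact add_mem ha hb
    | smul r a _ ha => rw [map_smul]; exact Submodule.smul_mem _ _ ha

/-- an element whose class lies deep in the filtration is killed by characters -/
lemma char_step {D : ℕ → Subgroup P} (hD : IsFil p D) {H : Subgroup P} {m : ℕ} (hm0 : 0 < m)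
    (hm : D m = ⊥) (χ : H →* Multiplicative (ZMod p)) (z : H)
    (hz : og p (z : P) - 1 ∈ Fil p D H m) : χ z = 1 := by
  classical
  let c : P → ZMod p := fun g => if h : g ∈ H then Multiplicative.toAdd (χ ⟨g, h⟩) else 0
  have c_mul : ∀ g ∈ H, ∀ h ∈ H, c (g * h) = c g + c h := by
    intro g hg h hh
    have : (⟨g * h, mul_mem hg hh⟩ : H) = ⟨g, hg⟩ * ⟨h, hh⟩ := rfl
    simp only [c, dif_pos hg, dif_pos hh, dif_pos (mul_mem hg hh), this, map_mul, toAdd_mul]
  have c_one : c 1 = 0 := by
    have : (⟨1, one_mem H⟩ : H) = 1 := rfl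
    simp only [c, dif_pos (one_mem H), this, map_one, toAdd_one]
  let ε : GA p P →ₗ[ZMod p] ZMod p := linExt c
  have ε_og : ∀ g, ε (og p g) = c g := fun g => linExt_og _ g
  have step : ∀ (q : P × ℕ) (L : List (P × ℕ)) (g : P), ε (og p g * wd p (q :: L)) =
      ε (og p (g * q.1) * wd p L) - ε (og p g * wd p L) := by
    intro q L g
    have hwd : wd p (q :: L) = (og p q.1 - 1) * wd p L := by simp [wd]
    rw [hwd, ← map_sub, map_mul (og p)]; congr 1; noncomm_ring
  have indep : ∀ (L : List (P × ℕ)) (q : P × ℕ), (∀ q' ∈ q :: L, q'.1 ∈ H) → ∀ g ∈ H,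
      ε (og p g * wd p (q :: L)) = if L = [] then c q.1 else 0 := by
    intro L
    induction L with
    | nil =>
      intro q hq g hg
      rw [step]
      simp only [wd, List.map_nil, List.prod_nil, mul_one, ε_og,
        c_mul g hg q.1 (hq q List.mem_cons_self), if_true]
      ring
    | cons q' L ih =>
      intro q hq g hg
      have hq' : ∀ q'' ∈ q' :: L, q''.1 ∈ H := fun q'' h => hq q'' (List.mem_cons_of_mem _ h)
      rw [step, ih q' hq' _ (mul_mem hg (hq q List.mem_cons_self)), ih q' hq' g hg]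
      simp
  have van : ∀ y ∈ Fil p D H m, ε y = 0 := by
    intro y hy
    induction hy using Submodule.span_induction with
    | mem y hy =>
      obtain ⟨L, h1, h2, rfl⟩ := hy
      cases L with
      | nil => simp at h2; omega
      | cons q L =>
        have := indep L q (fun q' h => (h1 q' h).1) 1 (one_mem H)
        rw [map_one, one_mul] at this
        rw [this]
        split_ifs with hL
        · subst hL
          have hq : q.1 ∈ D m := hD.anti (by simpa using h2) (h1 q List.mem_cons_self).2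
          rw [hm, Subgroup.mem_bot] at hq
          rw [hq, c_one]
        · rfl
    | zero => simp
    | add a b _ _ ha hb => rw [map_add, ha, hb, add_zero]
    | smul r a _ ha => rw [map_smul, ha, smul_zero]
  have := van _ hz
  rw [map_sub, ← map_one (og p), ε_og, ε_og, c_one, sub_zero] at this
  simp only [c, dif_pos z.2] at this
  exact this

/-- **Jennings**: if the filtration is trivial in weight `m`, only the identity has
`g - 1` of weight `m`. -/
theorem jennings [Finite P] {D : ℕ → Subgroup P} (hD : IsFil p D) {m : ℕ} (hm : D m = ⊥) :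
    ∀ (H : Subgroup P), H ≤ D 0 → ∀ z ∈ H, og p z - 1 ∈ Fil p D H m → z = 1 := by
  classical
  intro H
  induction hn : Nat.card H using Nat.strong_induction_on generalizing H with
  | _ n ih =>
    intro hH z hz hz'
    by_cases hbot : H = ⊥
    · rw [hbot] at hz; exact hz
    have hex : ∃ w, ¬ H ≤ D (w + 1) := by
      refine ⟨m, fun h => hbot ?_⟩
      have := h.trans (hD.anti (Nat.le_succ m))
      rw [hm] at this
      exact le_bot_iff.1 this
    set w := Nat.find hex with hw
    have h2 : ¬ H ≤ D (w + 1) := Nat.find_spec hex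
    have hw1 : 1 ≤ w := by
      by_contra hc
      have : w = 0 := by omega
      rw [this] at h2
      exact h2 (hH.trans hD.zero_le)
    have h1 : H ≤ D w := by
      have := Nat.find_min hex (m := w - 1) (by omega)
      push Not at this
      rwa [Nat.sub_add_cancel hw1] at this
    have hm0 : 0 < m := by
      rcases Nat.eq_zero_or_pos m with h | h
      · rw [h] at hm; rw [hm] at hH; exact absurd (le_bot_iff.1 hH) hbot
      · exact h
    obtain ⟨χ, ⟨g0, hg0⟩, hχ⟩ := exists_char hD hw1 h1 h2
    obtain ⟨π, hπ1, hπ2⟩ := proj_step hD h1 χ g0 hg0 hχ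
    have hzk : z ∈ χ.ker.map H.subtype := ⟨⟨z, hz⟩, char_step hD hm0 hm χ ⟨z, hz⟩ hz', rfl⟩
    have hlt : χ.ker.map H.subtype < H := by
      refine lt_of_le_of_ne (Subgroup.map_subtype_le _) (fun h => ?_)
      have : (g0 : P) ∈ χ.ker.map H.subtype := by rw [h]; exact g0.2
      obtain ⟨g, hg, hg'⟩ := this
      have : g = g0 := Subtype.ext hg'
      subst this
      have hg2 : χ g = 1 := hg
      rw [hg0] at hg2
      have : (1 : ZMod p) = 0 := hg2
      exact one_ne_zero this
    have hcard : Nat.card (χ.ker.map H.subtype) < n := by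
      rw [← hn]
      exact Set.ncard_lt_ncard hlt (Set.toFinite _)
    refine ih _ hcard _ rfl (hlt.le.trans hH) z hzk ?_
    have := hπ2 m _ hz'
    rwa [map_sub, hπ1 z hzk, ← map_one (og p), hπ1 1 (one_mem _), map_one] at this

end Pool.Agent.Lib.MP_6d9b00_al.W34
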