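import Pool.Agent.Lib.MP_6d9b00_al.W34.Jennings
import Pool.Agent.Lib.MP_6d9b00_al.W34.Expand

/-!
The main weight estimate for the `p`-th power of an element of `T`.
-/

set_option autoImplicit false
set_option linter.unusedSectionVars false
set_option linter.style.haveILetI false

namespace Pool.Agent.Lib.MP_6d9b00_al.W34

open Finset
open scoped commutatorElement

variable {p : ℕ} [hp : Fact p.Prime] {P : Type*} [Group P] {A : Type*} [CommGroup A]

/-- the standing hypotheses: all elements `g c` with `g ∈ T`, `c ≠ 1` have order dividing `p` -/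
structure Setup (p : ℕ) {P : Type*} [Group P] {A : Type*} [CommGroup A] (T : Subgroup P)
    (ι : A →* P) (a b : A) : Prop where
  ha : a ^ p = 1
  hb : b ^ p = 1
  indep : ∀ i j, i < p → j < p → a ^ i * b ^ j = 1 → i = 0 ∧ j = 0
  hyp : ∀ g ∈ T, ∀ c : A, c ≠ 1 → (g * ι c) ^ p = 1

lemma mul_pow_eq (g c : P) (n : ℕ) :
    (g * c) ^ n = ((List.range n).map (fun j => c ^ j * g * (c ^ j)⁻¹)).prod * c ^ n := by
  induction n with
  | zero => simp
  | succ n ih =>
    rw [pow_succ, ih, List.range_succ, List.map_append, List.prod_append]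
    simp only [List.map_cons, List.map_nil, List.prod_cons, List.prod_nil, mul_one, pow_succ]
    group

lemma Setup.norm_one {T : Subgroup P} {ι : A →* P} {a b : A} (hS : Setup p T ι a b) {g : P}
    (hg : g ∈ T) {c : A} (hc : c ≠ 1) :
    ((List.range p).map (fun j => ι (c ^ j) * g * (ι (c ^ j))⁻¹)).prod = 1 := by
  have h1 := hS.hyp g hg c hc
  have h2 := hS.hyp 1 (one_mem T) c hc
  rw [one_mul] at h2
  rw [mul_pow_eq, h2, mul_one] at h1
  simpa only [map_pow] using h1

lemma Setup.a_ne {T : Subgroup P} {ι : A →* P} {a b : A} (hS : Setup p T ι a b) : a ≠ 1 := by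
  intro h
  have := hS.indep 1 0 hp.out.one_lt hp.out.pos (by simp [h])
  omega

lemma Setup.b_ne {T : Subgroup P} {ι : A →* P} {a b : A} (hS : Setup p T ι a b) : b ≠ 1 := by
  intro h
  have := hS.indep 0 1 hp.out.pos hp.out.one_lt (by simp [h])
  omega

/-- conjugation on the group algebra -/
noncomputable def cj (p : ℕ) [Fact p.Prime] {P : Type*} [Group P] (c : P) :
    GA p P →ₐ[ZMod p] GA p P :=
  MonoidAlgebra.lift (ZMod p) (GA p P) P ((og p).comp (MulAut.conj c).toMonoidHom)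

lemma cj_og (c g : P) : cj p c (og p g) = og p (c * g * c⁻¹) := by
  simp [cj, og]

lemma cj_eq (c : P) (u : GA p P) : cj p c u = og p c * u * og p c⁻¹ := by
  refine lin_ext (cj p c).toLinearMap ((LinearMap.mulRight _ (og p c⁻¹)).comp
      (LinearMap.mulLeft _ (og p c))) (fun g => ?_) u
  simp [cj_og]

lemma cj_cj (c c' : P) (u : GA p P) : cj p c (cj p c' u) = cj p (c * c') u := by
  rw [cj_eq c, cj_eq c', cj_eq (c * c'), mul_inv_rev, map_mul (og p), map_mul (og p)]
  simp only [mul_assoc]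

lemma cj_one (u : GA p P) : cj p (1 : P) u = u := by
  simp [cj_eq]

lemma lg_map {B B' : Type*} [Ring B] [Algebra (ZMod p) B] [Ring B'] [Algebra (ZMod p) B']
    (f : B →ₐ[ZMod p] B') (y : B) : f (lg p y) = lg p (f y) := by
  simp [lg, map_sum]

lemma sum_sub_prod_mem {D : ℕ → Subgroup P} {H : Subgroup P} {w : ℕ} (f : ℕ → P)
    (hf : ∀ j, f j ∈ H ∧ f j ∈ D w) (n : ℕ) :
    ∑ j ∈ range n, (og p (f j) - 1) - (og p ((List.range n).map f).prod - 1)
      ∈ Fil p D H (2 * w) := by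
  have hm : ∀ n, ((List.range n).map f).prod ∈ H ∧ ((List.range n).map f).prod ∈ D w := by
    intro n
    constructor
    · exact Subgroup.list_prod_mem _ (by simp only [List.mem_map]; rintro _ ⟨j, _, rfl⟩; exact (hf j).1)
    · exact Subgroup.list_prod_mem _ (by simp only [List.mem_map]; rintro _ ⟨j, _, rfl⟩; exact (hf j).2)
  induction n with
  | zero => simp
  | succ n ih =>
    have := sub_mem ih (Fil_mul' (Fil_letter (p := p) (hm n).1 (hm n).2)
      (Fil_letter (hf n).1 (hf n).2) (by omega : 2 * w ≤ w + w))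
    convert this using 1
    rw [Finset.sum_range_succ, List.range_succ, List.map_append, List.prod_append, map_mul]
    simp only [List.map_cons, List.map_nil, List.prod_cons, List.prod_nil, mul_one]
    noncomm_ring

section main
variable {D : ℕ → Subgroup P} {ι : A →* P} {s : A → ℕ}

lemma cj_sub_mem (hD : IsFil p D) {x : P} {k : ℕ} (hx : ∀ g w, g ∈ D w → ⁅x, g⁆ ∈ D (w + k))
    {n : ℕ} {u : GA p P} (hu : u ∈ Fil p D (D 0) n) : cj p x u - u ∈ Fil p D (D 0) (n + k) := by
  rw [cj_eq]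
  exact Fil_conj hD.anti x k
    (fun g w _ hg => ⟨hD.anti (Nat.zero_le _) (hx g w hg), hx g w hg⟩) hu

lemma cj_mem (hD : IsFil p D) {x : P} {k : ℕ} (hx : ∀ g w, g ∈ D w → ⁅x, g⁆ ∈ D (w + k))
    {n : ℕ} {u : GA p P} (hu : u ∈ Fil p D (D 0) n) : cj p x u ∈ Fil p D (D 0) n := by
  have := add_mem (Fil_anti (Nat.le_add_right n k) (cj_sub_mem hD hx hu)) hu
  simpa using this

lemma conj_mem_D (hD : IsFil p D) {x : P} {k : ℕ} (hx : ∀ g w, g ∈ D w → ⁅x, g⁆ ∈ D (w + k))
    {w : ℕ} {g : P} (hg : g ∈ D w) : x * g * x⁻¹ ∈ D w := by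
  have := mul_mem (hD.anti (Nat.le_add_right w k) (hx g w hg)) hg
  convert this using 1; group

lemma poly_conj (hD : IsFil p D)
    (hA : ∀ c (j : ℕ) g w, g ∈ D w → ⁅ι (c ^ j), g⁆ ∈ D (w + s c)) (j r : ℕ) :
    ∀ (n : ℕ) (u : GA p P), u ∈ Fil p D (D 0) n →
      Poly (Fil p D (D 0)) s r n (fun c : A => cj p (ι (c ^ j)) u) := by
  induction r with
  | zero => intro n u hu c; exact cj_mem hD (hA c j) hu
  | succ r ih =>
    intro n u hu
    refine ⟨fun c => cj_mem hD (hA c j) hu, fun c => ?_⟩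
    have := ih (n + s c) _ (cj_sub_mem hD (hA c j) hu)
    convert this using 2
    beta_reduce
    rw [map_sub, cj_cj, mul_pow, map_mul]

/-- the averaged norm of the powers of `t` -/
noncomputable def Th (p : ℕ) [Fact p.Prime] {P : Type*} [Group P] {A : Type*} [CommGroup A]
    (ι : A →* P) (t : P) (c : A) : GA p P :=
  ∑ ω : ZMod p, ω ^ (p - 2) •
    (og p ((List.range p).map (fun j => ι (c ^ j) * t ^ ω.val * (ι (c ^ j))⁻¹)).prod - 1)

/-- the error term of the averaged expansion -/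
noncomputable def Er (p : ℕ) [Fact p.Prime] {P : Type*} [Group P] {A : Type*} [CommGroup A]
    (ι : A →* P) (t : P) (c : A) : GA p P :=
  Th p ι t c + ∑ l ∈ range p, cj p (ι (c ^ l)) (lg p (og p t - 1))

lemma Er_mem (ι : A →* P) (t : P) :
    Er p ι t ∈ Wd p (fun (j : ℕ) (c : A) => cj p (ι (c ^ j)) (og p t - 1)) p := by
  have := expansion (p := p) (fun (j : ℕ) (c : A) => cj p (ι (c ^ j)) (og p t - 1)) p
  convert this using 1
  funext c
  have ev : ∀ y : A → GA p P, y c = Pi.evalAlgHom (ZMod p) (fun _ : A => GA p P) c y :=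
    fun y => rfl
  rw [ev (_ + _), map_add, map_sum, map_sum]
  simp only [Er, Th]
  congr 1
  · refine Finset.sum_congr rfl (fun ω _ => ?_)
    rw [map_smul, map_sub, map_one, map_list_prod, map_list_prod, List.map_map, List.map_map]
    congr 3
    refine List.map_congr_left (fun j _ => ?_)
    simp only [Function.comp, map_pow (Pi.evalAlgHom _ _ _), map_one, ← ev, map_sub,
      cj_og, Pi.add_apply, Pi.one_apply]
    rw [add_sub_cancel, ← map_pow, conj_pow]
  · refine Finset.sum_congr rfl (fun j _ => ?_)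
    rw [lg_map, lg_map]
    rfl

lemma Th_zero {T : Subgroup P} {a b : A} (hS : Setup p T ι a b) {t : P} (ht : t ∈ T) {c : A}
    (hc : c ≠ 1) : Th p ι t c = 0 := by
  refine Finset.sum_eq_zero (fun ω _ => ?_)
  rw [hS.norm_one (pow_mem ht _) hc]; simp

lemma Th_one {H : Subgroup P} {t : P} {w0 : ℕ} (hH : t ^ p ∈ H) (hz : t ^ p ∈ D w0) :
    Th p ι t 1 + (og p (t ^ p) - 1) ∈ Fil p D H (2 * w0) := by
  have e1 : ∀ n : ℕ, og p ((t ^ p) ^ n) - 1 - (n : ZMod p) • (og p (t ^ p) - 1)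
      ∈ Fil p D H (2 * w0) := by
    intro n
    have := sum_sub_prod_mem (p := p) (D := D) (H := H) (fun _ => t ^ p)
      (fun _ => ⟨hH, hz⟩) n
    have := neg_mem this
    convert this using 1
    simp [Nat.cast_smul_eq_nsmul, mul_sub]
  have e2 : Th p ι t 1 + (og p (t ^ p) - 1) = ∑ ω : ZMod p, ω ^ (p - 2) •
      (og p ((t ^ p) ^ ω.val) - 1 - (ω.val : ZMod p) • (og p (t ^ p) - 1)) := by
    simp only [smul_sub _ _ (_ • _), Finset.sum_sub_distrib, smul_smul, ← Finset.sum_smul,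
      ZMod.natCast_zmod_val, sum_pow_pred, Th]
    simp [← pow_mul, mul_comm]
    abel
  rw [e2]
  exact Submodule.sum_mem _ (fun ω _ => Submodule.smul_mem _ _ (e1 _))

lemma GA_pzero (y : GA p P) : p • y = 0 := by
  rw [← Nat.cast_smul_eq_nsmul (ZMod p)]; simp

lemma GA_predsum (f : ℕ → GA p P) (y : GA p P) (h0 : f 0 = 0)
    (h1 : ∀ l, 0 < l → l < p → f l = y) : ∑ l ∈ range p, f l = - y := by
  have h2 := hp.out.two_le
  rw [Finset.range_eq_Ico, Finset.sum_eq_sum_Ico_succ_bot hp.out.pos, h0, zero_add,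
    Finset.sum_congr rfl (fun l hl => h1 l (mem_Ico.1 hl).1 (mem_Ico.1 hl).2),
    Finset.sum_const, Nat.card_Ico, eq_neg_iff_add_eq_zero, ← succ_nsmul,
    show p - (0 + 1) + 1 = p by omega, GA_pzero]

lemma sum_Er_one {T : Subgroup P} {a b : A} (hS : Setup p T ι a b) {t : P} (ht : t ∈ T) :
    ∑ j ∈ range p, Er p ι t (b ^ j)
      = Th p ι t 1 - ∑ j ∈ range p, cj p (ι (b ^ j)) (lg p (og p t - 1)) := by
  simp only [Er, Finset.sum_add_distrib]
  rw [Finset.sum_eq_single 0, Finset.sum_comm,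
    GA_predsum _ (∑ j ∈ range p, cj p (ι (b ^ j)) (lg p (og p t - 1)))]
  · simp [sub_eq_add_neg]
  · simp only [pow_zero, map_one, cj_one, Finset.sum_const, Finset.card_range, GA_pzero]
  · intro l h0 hl
    simp only [← pow_mul]
    exact sum_range_pow_mul b hS.hb (fun c => cj p (ι c) (lg p (og p t - 1))) l h0 hl
  · intro j hj hj0
    apply Th_zero hS ht
    intro hc
    exact hj0 (hS.indep 0 j hp.out.pos (mem_range.1 hj) (by simpa using hc)).2
  · intro h; exact absurd (mem_range.2 hp.out.pos) h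

lemma sum_Er_two {T : Subgroup P} {a b : A} (hS : Setup p T ι a b) {t : P} (ht : t ∈ T) :
    ∑ i ∈ range p, ∑ j ∈ range p, Er p ι t (a ^ i * b ^ j)
      = Th p ι t 1 - ∑ i ∈ range p, cj p (ι (a ^ i))
        (∑ j ∈ range p, cj p (ι (b ^ j)) (lg p (og p t - 1))) := by
  simp only [Er, Finset.sum_add_distrib]
  have e1 : ∑ i ∈ range p, ∑ j ∈ range p, Th p ι t (a ^ i * b ^ j) = Th p ι t 1 := by
    rw [Finset.sum_eq_single 0, Finset.sum_eq_single 0]
    · simp
    · intro j hj hj0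
      apply Th_zero hS ht
      intro hc
      exact hj0 (hS.indep 0 j hp.out.pos (mem_range.1 hj) hc).2
    · intro h; exact absurd (mem_range.2 hp.out.pos) h
    · intro i hi hi0
      refine Finset.sum_eq_zero (fun j hj => Th_zero hS ht (fun hc => ?_))
      exact hi0 (hS.indep i j (mem_range.1 hi) (mem_range.1 hj) hc).1
    · intro h; exact absurd (mem_range.2 hp.out.pos) h
  have e2 : ∑ i ∈ range p, ∑ j ∈ range p, ∑ l ∈ range p,
      cj p (ι ((a ^ i * b ^ j) ^ l)) (lg p (og p t - 1))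
      = - ∑ i ∈ range p, cj p (ι (a ^ i))
        (∑ j ∈ range p, cj p (ι (b ^ j)) (lg p (og p t - 1))) := by
    rw [Finset.sum_congr rfl (fun i _ => Finset.sum_comm), Finset.sum_comm]
    apply GA_predsum
    · simp only [pow_zero, map_one, cj_one, Finset.sum_const, Finset.card_range, GA_pzero]
    · intro l h0 hl
      simp only [mul_pow, ← pow_mul]
      rw [sum_range_pow_mul a hS.ha
        (fun c => ∑ j ∈ range p, cj p (ι (c * b ^ (j * l))) (lg p (og p t - 1))) l h0 hl]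
      refine Finset.sum_congr rfl (fun i _ => ?_)
      rw [sum_range_pow_mul b hS.hb (fun c => cj p (ι (a ^ i * c)) (lg p (og p t - 1))) l h0 hl,
        map_sum]
      refine Finset.sum_congr rfl (fun j _ => ?_)
      rw [cj_cj, map_mul]
  rw [e1, e2, ← sub_eq_add_neg]

theorem power_trivial [Finite P] (hD : IsFil p D) {a b : A}
    (hS : Setup p (D 0) ι a b) (hA : ∀ c (j : ℕ) g w, g ∈ D w → ⁅ι (c ^ j), g⁆ ∈ D (w + s c))
    {t : P} {K w0 m : ℕ} (ht : t ∈ D K) (hz : t ^ p ∈ D w0) (hw0 : m ≤ 2 * w0)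
    (hm' : m ≤ p * K + s b * (p - 1) + s a * (p - 1)) (hm : D m = ⊥) : t ^ p = 1 := by
  have h2 := hp.out.two_le
  have D0 : ∀ {w g}, g ∈ D w → g ∈ D 0 := fun h => hD.anti (Nat.zero_le _) h
  have hxt : og p t - 1 ∈ Fil p D (D 0) K := Fil_letter (D0 ht) ht
  have polyE : ∀ r : ℕ, Poly (Fil p D (D 0)) s r (p * K) (Er p ι t) := fun r =>
    Poly.of_Wd (fun h => Fil_anti h) (fun hx hy => Fil_mul hx hy) Fil_one _
      (fun j => poly_conj hD hA j r K _ hxt) (Er_mem ι t)
  have he := Th_one (ι := ι) (D0 hz) hz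
  let Na : GA p P →ₗ[ZMod p] GA p P := ∑ i ∈ range p, (cj p (ι (a ^ i))).toLinearMap
  have Na_apply : ∀ y, Na y = ∑ i ∈ range p, cj p (ι (a ^ i)) y := fun y => by
    simp [Na, LinearMap.sum_apply]
  have Na_up : ∀ n, ∀ y ∈ Fil p D (D 0) n, Na y ∈ Fil p D (D 0) (n + s a * (p - 1)) := by
    intro n y hy
    have := (Poly.sum a (r := 0) (poly_conj hD hA 1 _ n y hy)).mem 1
    simpa [Na_apply] using this
  have Na_z : Na (og p (t ^ p) - 1) ∈ Fil p D (D 0) (2 * w0) := by
    have := sum_sub_prod_mem (p := p) (D := D) (H := D 0)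
      (fun j => ι (a ^ j) * t ^ p * (ι (a ^ j))⁻¹)
      (fun j => ⟨D0 (conj_mem_D hD (hA a j) hz), conj_mem_D hD (hA a j) hz⟩) p
    rw [hS.norm_one (D0 hz) hS.a_ne] at this
    rw [Na_apply]
    simpa only [map_sub, cj_og, map_one, sub_self, sub_zero] using this
  have S1 := sum_Er_one hS (D0 ht)
  have S2 := sum_Er_two hS (D0 ht)
  rw [← Na_apply] at S2
  have M1 : ∑ j ∈ range p, Er p ι t (b ^ j) ∈ Fil p D (D 0) (p * K + s b * (p - 1)) := by
    have := (Poly.sum b (r := 0) (polyE _)).mem 1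
    simpa using this
  have M2 : ∑ i ∈ range p, ∑ j ∈ range p, Er p ι t (a ^ i * b ^ j)
      ∈ Fil p D (D 0) (p * K + s b * (p - 1) + s a * (p - 1)) := by
    have := (Poly.sum a (r := 0) (Poly.sum b (polyE _))).mem 1
    simpa using this
  have fin : og p (t ^ p) - 1 = (Th p ι t 1 + (og p (t ^ p) - 1))
      - ∑ i ∈ range p, ∑ j ∈ range p, Er p ι t (a ^ i * b ^ j)
      - Na (Th p ι t 1 + (og p (t ^ p) - 1)) + Na (og p (t ^ p) - 1)
      + Na (∑ j ∈ range p, Er p ι t (b ^ j)) := by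
    rw [S1, S2, map_add, map_sub Na (Th p ι t 1)]; abel
  refine jennings hD hm (D 0) le_rfl _ (D0 hz) ?_
  rw [fin]
  refine add_mem (add_mem (sub_mem (sub_mem (Fil_anti hw0 he) (Fil_anti hm' M2))
    (Fil_anti (hw0.trans (Nat.le_add_right _ _)) (Na_up _ _ he))) (Fil_anti hw0 Na_z))
    (Fil_anti hm' (Na_up _ _ M1))

end main

end Pool.Agent.Lib.MP_6d9b00_al.W34
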