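import Pool.Agent.Lib.MP_6d9b00_al.W34.Series

/-!
Removing the positivity assumptions on the weights by refining with the lower central series.
-/

set_option autoImplicit false
set_option linter.unusedSectionVars false
set_option linter.style.haveILetI false

namespace Pool.Agent.Lib.MP_6d9b00_al.W34

open scoped commutatorElement

universe u

variable {p : ℕ} [hp : Fact p.Prime] {A : Type*} [CommGroup A] {P : Type u} [Group P]

lemma three_sub {H₁ H₂ H₃ N : Subgroup P} [N.Normal] (h1 : ⁅⁅H₂, H₃⁆, H₁⁆ ≤ N)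
    (h2 : ⁅⁅H₃, H₁⁆, H₂⁆ ≤ N) : ⁅⁅H₁, H₂⁆, H₃⁆ ≤ N := by
  have key : ∀ H : Subgroup P, H ≤ N ↔ H.map (QuotientGroup.mk' N) = ⊥ := fun H => by
    rw [Subgroup.map_eq_bot_iff, QuotientGroup.ker_mk']
  rw [key] at h1 h2 ⊢
  simp only [Subgroup.map_commutator] at h1 h2 ⊢
  exact Subgroup.commutator_commutator_eq_bot_of_rotate h1 h2

lemma lcs_comm (j : ℕ) : ∀ i : ℕ, ⁅(⊤ : Subgroup P).lowerCentralSeries i,
    (⊤ : Subgroup P).lowerCentralSeries j⁆ ≤ (⊤ : Subgroup P).lowerCentralSeries (i + j + 1) := by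
  induction j with
  | zero => intro i; exact le_rfl
  | succ j ih =>
    intro i
    rw [Subgroup.commutator_comm, Subgroup.lowerCentralSeries_succ ⊤ j]
    refine three_sub ?_ ?_
    · rw [Subgroup.commutator_comm ⊤, ← Subgroup.lowerCentralSeries_succ]
      have := ih (i + 1)
      rwa [show i + 1 + j + 1 = i + (j + 1) + 1 by omega] at this
    · rw [show i + (j + 1) + 1 = (i + j + 1) + 1 by omega, Subgroup.lowerCentralSeries_succ ⊤
        (i + j + 1)]
      exact Subgroup.commutator_mono (ih i) le_rfl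

lemma lcs_comm_mem {i j : ℕ} {g h : P} (hg : g ∈ (⊤ : Subgroup P).lowerCentralSeries i)
    (hh : h ∈ (⊤ : Subgroup P).lowerCentralSeries j) :
    ⁅g, h⁆ ∈ (⊤ : Subgroup P).lowerCentralSeries (i + j + 1) :=
  lcs_comm j i (Subgroup.commutator_mem_commutator hg hh)

lemma comm_iSup_right {I : Sort*} {N : Subgroup P} (hN : N.Normal) (x : P) {H : I → Subgroup P}
    (h : ∀ i, ∀ g ∈ H i, ⁅x, g⁆ ∈ N) {g : P} (hg : g ∈ ⨆ i, H i) : ⁅x, g⁆ ∈ N := by
  refine Subgroup.iSup_induction H (C := fun g => ⁅x, g⁆ ∈ N) hg h (by simp) ?_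
  intro y z hy hz
  have e : ⁅x, y * z⁆ = ⁅x, y⁆ * (y * ⁅x, z⁆ * y⁻¹) := by
    simp only [commutatorElement_def]; group
  rw [e]
  exact mul_mem hy (hN.conj_mem _ hz y)

lemma comm_symm_mem {N : Subgroup P} {x y : P} (h : ⁅x, y⁆ ∈ N) : ⁅y, x⁆ ∈ N := by
  rw [← commutatorElement_inv]; exact inv_mem h

theorem ser_main [Finite P] {D : ℕ → Subgroup P} {ι : A →* P} {a b : A}
    {K s s' : ℕ} (hP : IsPGroup p P) (hS : Setup p (D 0) ι a b)
    (hD : Ser D ι a b K s s') {t : P} (ht : t ∈ D 0) :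
    t ^ p ∈ D (p * K + (p - 1) * (s + s')) := by
  have h2 := hp.out.two_le
  haveI := hP.isNilpotent
  obtain ⟨N, hN⟩ : ∃ N, (⊤ : Subgroup P).lowerCentralSeries N = ⊥ :=
    ⟨_, Subgroup.lowerCentralSeries_nilpotencyClass⟩
  let R : ℕ → Subgroup P := fun n => ⨆ q : {q : ℕ × ℕ // n ≤ N * q.1 + (q.2 + 1)},
    D q.1.1 ⊓ (⊤ : Subgroup P).lowerCentralSeries q.1.2
  have inR : ∀ {n d e : ℕ} {g : P}, n ≤ N * d + (e + 1) → g ∈ D d →
      g ∈ (⊤ : Subgroup P).lowerCentralSeries e → g ∈ R n := by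
    intro n d e g h h1 h3
    exact Subgroup.mem_iSup_of_mem (⟨(d, e), h⟩ : {q : ℕ × ℕ // n ≤ N * q.1 + (q.2 + 1)}) ⟨h1, h3⟩
  have Rn : ∀ n, (R n).Normal := by
    intro n
    haveI := hD.normal
    exact Subgroup.iSup_normal _
  have R0 : R 0 = D 0 := by
    apply le_antisymm
    · exact iSup_le (fun q => inf_le_left.trans (hD.anti (Nat.zero_le _)))
    · intro g hg
      exact inR (e := 0) (Nat.zero_le _) hg (Subgroup.mem_top _)
  have act : ∀ (x : P) (k : ℕ), (∀ i g, g ∈ D i → ⁅x, g⁆ ∈ D (i + k)) →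
      ∀ i g, g ∈ R i → ⁅x, g⁆ ∈ R (i + (N * k + 1)) := by
    intro x k hx i g hg
    refine comm_iSup_right (Rn _) x ?_ hg
    rintro ⟨⟨d, e⟩, hq⟩ g hg
    refine inR ?_ (hx d g hg.1) (lcs_comm_mem (i := 0) (Subgroup.mem_top x) hg.2)
    simp only at hq ⊢
    rw [mul_add]; omega
  have hR : Ser R ι a b (N * K + 1) (N * s + 1) (N * s' + 1) := by
    refine ⟨Rn, fun {i j} hij => ?_, ?_, ?_, act _ _ hD.acta, act _ _ hD.actb⟩
    · exact iSup_le (fun q g hg => inR (hij.trans q.2) hg.1 hg.2)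
    · rw [R0]; intro g hg
      exact inR (e := 0) le_rfl (hD.top hg) (Subgroup.mem_top _)
    · intro i j g h hg hh
      refine comm_iSup_right (Rn _) g ?_ hh
      rintro ⟨⟨d', e'⟩, hq'⟩ h hh
      refine comm_symm_mem (comm_iSup_right (Rn _) h ?_ hg)
      rintro ⟨⟨d, e⟩, hq⟩ g hg
      refine comm_symm_mem (inR ?_ (hD.comm d d' g h hg.1 hh.1) (lcs_comm_mem hg.2 hh.2))
      simp only at hq hq' ⊢
      rw [mul_add]; omega
  have := ser_pos (by omega) (by omega) hP (R0 ▸ hS) hR (R0 ▸ ht)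
  refine (iSup_le ?_ : R _ ≤ _) this
  rintro ⟨⟨d, e⟩, hq⟩
  simp only at hq ⊢
  by_cases hd : p * K + (p - 1) * (s + s') ≤ d
  · exact inf_le_left.trans (hD.anti hd)
  · have h3 : N * (d + 1) ≤ N * (p * K + (p - 1) * (s + s')) := Nat.mul_le_mul_left N (by omega)
    have h4 : p * (N * K + 1) + (p - 1) * (N * s + 1 + (N * s' + 1))
        = N * (p * K + (p - 1) * (s + s')) + p + (p - 1) * 2 := by ring
    have h5 : N ≤ e := by rw [mul_add] at h3; omega
    refine inf_le_right.trans ((Subgroup.lowerCentralSeries_antitone ⊤ h5).trans ?_)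
    rw [hN]; exact bot_le

end Pool.Agent.Lib.MP_6d9b00_al.W34
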