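import Pool.Agent.Lib.MP_6d9b00_al.W34.Power

/-!
The weight estimate for arbitrary central-type series, by induction on the order.
-/

set_option autoImplicit false
set_option linter.unusedSectionVars false
set_option linter.style.haveILetI false

namespace Pool.Agent.Lib.MP_6d9b00_al.W34

open scoped commutatorElement

universe u

variable {p : ℕ} [hp : Fact p.Prime] {A : Type*} [CommGroup A]

/-- a weighted series of normal subgroups -/
structure Ser {P : Type u} [Group P] {A : Type*} [CommGroup A] (D : ℕ → Subgroup P) (ι : A →* P)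
    (a b : A) (K s s' : ℕ) : Prop where
  normal : ∀ n, (D n).Normal
  anti : ∀ {i j}, i ≤ j → D j ≤ D i
  top : D 0 ≤ D K
  comm : ∀ i j g h, g ∈ D i → h ∈ D j → ⁅g, h⁆ ∈ D (i + j)
  acta : ∀ i g, g ∈ D i → ⁅ι a, g⁆ ∈ D (i + s)
  actb : ∀ i g, g ∈ D i → ⁅ι b, g⁆ ∈ D (i + s')

section
variable {P : Type u} [Group P] {D : ℕ → Subgroup P} {ι : A →* P} {a b : A} {K s s' : ℕ}

lemma Ser.map {Q : Type u} [Group Q] (h : Ser D ι a b K s s') (π : P →* Q)
    (hπ : Function.Surjective π) : Ser (fun n => (D n).map π) (π.comp ι) a b K s s' where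
  normal n := (h.normal n).map π hπ
  anti hij := Subgroup.map_mono (h.anti hij)
  top := Subgroup.map_mono h.top
  comm := by
    rintro i j _ _ ⟨g, hg, rfl⟩ ⟨g', hg', rfl⟩
    exact ⟨_, h.comm i j g g' hg hg', map_commutatorElement π g g'⟩
  acta := by
    rintro i _ ⟨g, hg, rfl⟩
    exact ⟨_, h.acta i g hg, map_commutatorElement π _ g⟩
  actb := by
    rintro i _ ⟨g, hg, rfl⟩
    exact ⟨_, h.actb i g hg, map_commutatorElement π _ g⟩

lemma comm_mem_right {N : Subgroup P} (hN : N.Normal) (x : P) {g : P} (hg : g ∈ N) :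
    ⁅x, g⁆ ∈ N := by
  rw [commutatorElement_def]
  exact mul_mem (hN.conj_mem g hg x) (inv_mem hg)

lemma Ser.inf (h : Ser D ι a b K s s') {N : Subgroup P} (hN : N.Normal) :
    Ser (fun n => D n ⊓ N) ι a b K s s' where
  normal n := by haveI := h.normal n; infer_instance
  anti hij := inf_le_inf_right _ (h.anti hij)
  top := inf_le_inf_right _ h.top
  comm i j g g' hg hg' := ⟨h.comm i j g g' hg.1 hg'.1, comm_mem_right hN _ hg'.2⟩
  acta i g hg := ⟨h.acta i g hg.1, comm_mem_right hN _ hg.2⟩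
  actb i g hg := ⟨h.actb i g hg.1, comm_mem_right hN _ hg.2⟩

lemma Setup.map {Q : Type u} [Group Q] {T : Subgroup P} (h : Setup p T ι a b) (π : P →* Q) :
    Setup p (T.map π) (π.comp ι) a b where
  ha := h.ha
  hb := h.hb
  indep := h.indep
  hyp := by
    rintro _ ⟨g, hg, rfl⟩ c hc
    rw [MonoidHom.comp_apply, ← map_mul, ← map_pow, h.hyp g hg c hc, map_one]

lemma Setup.mono {T T' : Subgroup P} (h : Setup p T ι a b) (hT : T' ≤ T) : Setup p T' ι a b where
  ha := h.ha
  hb := h.hb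
  indep := h.indep
  hyp g hg := h.hyp g (hT hg)

lemma comm_pow_mem {N : Subgroup P} (hN : N.Normal) {x g : P} (h : ⁅x, g⁆ ∈ N) (j : ℕ) :
    ⁅x ^ j, g⁆ ∈ N := by
  induction j with
  | zero => simp
  | succ j ih =>
    have : ⁅x ^ (j + 1), g⁆ = x * ⁅x ^ j, g⁆ * x⁻¹ * ⁅x, g⁆ := by
      simp only [commutatorElement_def]; group
    rw [this]
    exact mul_mem (hN.conj_mem _ ih x) h

lemma card_map_lt [Finite P] {Q : Type u} [Group Q] (π : P →* Q) {H : Subgroup P} {z : P}
    (hz : z ∈ H) (hz1 : z ≠ 1) (hπ : π z = 1) : Nat.card (H.map π) < Nat.card H := by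
  classical
  have hs : Function.Surjective (π.subgroupMap H) := π.subgroupMap_surjective H
  haveI : Finite (H.map π) := Finite.of_surjective _ hs
  haveI := Fintype.ofFinite H
  haveI := Fintype.ofFinite (H.map π)
  rw [Nat.card_eq_fintype_card, Nat.card_eq_fintype_card]
  refine Fintype.card_lt_of_surjective_not_injective _ hs (fun hi => hz1 ?_)
  have : π.subgroupMap H ⟨z, hz⟩ = π.subgroupMap H 1 := by
    rw [map_one]; exact Subtype.ext hπ
  exact congrArg Subtype.val (hi this)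

end

theorem ser_trivial (a b : A) (s s' : ℕ) (hs : 1 ≤ s + s') (n : ℕ) :
    ∀ (P : Type u) [Group P] [Finite P] (D : ℕ → Subgroup P) (ι : A →* P) (K : ℕ), 1 ≤ K →
      Nat.card (D 0) = n → IsPGroup p P → Setup p (D 0) ι a b → Ser D ι a b K s s' →
      D (p * K + (p - 1) * (s + s')) = ⊥ → ∀ t ∈ D 0, t ^ p = 1 := by
  classical
  have h2 := hp.out.two_le
  induction n using Nat.strong_induction_on with
  | _ n ih =>
  intro P _ _ D ι K hK hn hP hS hD hm t ht
  by_cases hbot : D 0 = ⊥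
  · rw [hbot, Subgroup.mem_bot] at ht; simp [ht]
  -- the last index where the series is everything
  have ex1 : ∃ k, ¬ D 0 ≤ D (k + 1) := by
    refine ⟨p * K + (p - 1) * (s + s'), fun h => hbot (le_bot_iff.1 ?_)⟩
    rw [← hm]; exact h.trans (hD.anti (Nat.le_succ _))
  set K' := Nat.find ex1 with hK'
  have hK1 : ¬ D 0 ≤ D (K' + 1) := Nat.find_spec ex1
  have hKK : K ≤ K' := by
    by_contra hlt
    exact hK1 (hD.top.trans (hD.anti (by omega)))
  have hK0 : D 0 ≤ D K' := by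
    obtain ⟨k, hk⟩ : ∃ k, K' = k + 1 := ⟨K' - 1, by omega⟩
    have := Nat.find_min ex1 (show k < Nat.find ex1 by omega)
    rw [hk]; exact not_not.1 this
  set m := p * K' + (p - 1) * (s + s') with hmdef
  have hm' : D m = ⊥ := le_bot_iff.1 (hm ▸ hD.anti (by
    have := Nat.mul_le_mul_left p hKK; omega))
  have hmgt : p * K' < m := by
    have : 1 * 1 ≤ (p - 1) * (s + s') := Nat.mul_le_mul (by omega) hs
    omega
  have hm2 : 2 ≤ m := by
    have : 2 * 1 ≤ p * K' := Nat.mul_le_mul h2 (by omega)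
    omega
  -- the last nontrivial term
  have ex2 : ∃ k, D (k + 1) = ⊥ := ⟨m, le_bot_iff.1 (hm' ▸ hD.anti (Nat.le_succ _))⟩
  set l := Nat.find ex2 with hl
  have hl1 : D (l + 1) = ⊥ := Nat.find_spec ex2
  have hl0 : D l ≠ ⊥ := by
    rcases Nat.eq_zero_or_pos l with h0 | h0
    · rw [h0]; exact hbot
    · obtain ⟨k, hk⟩ : ∃ k, l = k + 1 := ⟨l - 1, by omega⟩
      rw [hk]; exact Nat.find_min ex2 (show k < Nat.find ex2 by omega)
  have hcen : ∀ z ∈ D l, ∀ g ∈ D 0, Commute z g := by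
    intro z hz g hg
    have := hD.anti (show l + 1 ≤ l + K by omega) (hD.comm l K z g hz (hD.top hg))
    rw [hl1, Subgroup.mem_bot] at this
    exact commutatorElement_eq_one_iff_commute.1 this
  have hl00 : D l ≤ D 0 := hD.anti (Nat.zero_le _)
  let Z : Subgroup P :=
    { carrier := {z | z ∈ D l ∧ z ^ p = 1}
      one_mem' := ⟨one_mem _, one_pow _⟩
      mul_mem' := fun {x y} hx hy => ⟨mul_mem hx.1 hy.1, by
        rw [(hcen x hx.1 y (hl00 hy.1)).mul_pow, hx.2, hy.2, one_mul]⟩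
      inv_mem' := fun {x} hx => ⟨inv_mem hx.1, by rw [inv_pow, hx.2, inv_one]⟩ }
  have memZ : ∀ z, z ∈ Z ↔ z ∈ D l ∧ z ^ p = 1 := fun z => Iff.rfl
  haveI hZn : Z.Normal := ⟨fun z hz g => ⟨(hD.normal l).conj_mem z hz.1 g, by
    rw [conj_pow, hz.2]; simp⟩⟩
  have hZ0 : Z ≤ D 0 := fun z hz => hl00 hz.1
  obtain ⟨z0, hz0, hz01⟩ : ∃ z ∈ Z, z ≠ 1 := by
    obtain ⟨g, hg, hg1⟩ := (Subgroup.bot_or_exists_ne_one (D l)).resolve_left hl0
    have ex3 := hP g
    have h3 := Nat.find_spec ex3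
    obtain ⟨k, hk⟩ : ∃ k, Nat.find ex3 = k + 1 := by
      refine ⟨Nat.find ex3 - 1, ?_⟩
      rcases Nat.eq_zero_or_pos (Nat.find ex3) with h0 | h0
      · rw [h0] at h3; simp at h3; exact absurd h3 hg1
      · omega
    refine ⟨g ^ p ^ k, ⟨pow_mem hg _, ?_⟩, Nat.find_min ex3 (show k < Nat.find ex3 by omega)⟩
    rw [← pow_mul, ← pow_succ, ← hk, h3]
  -- the quotient by `Z`
  have hTZ : ∀ g ∈ D 0, g ^ p ∈ Z := by
    intro g hg
    have := ih _ (hn ▸ card_map_lt (QuotientGroup.mk' Z) (hZ0 hz0) hz01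
        ((QuotientGroup.eq_one_iff _).2 hz0)) (P ⧸ Z) (fun n => (D n).map (QuotientGroup.mk' Z))
      ((QuotientGroup.mk' Z).comp ι) K hK rfl (hP.to_quotient Z) (hS.map _)
      (hD.map _ (QuotientGroup.mk'_surjective Z)) (by simp only [hm, Subgroup.map_bot])
      _ ⟨g, hg, rfl⟩
    rw [← map_pow] at this
    exact (QuotientGroup.eq_one_iff _).1 this
  -- the proper subgroup
  have hT1 : ∀ g ∈ D (K' + 1), g ^ p = 1 := by
    intro g hg
    have hle : D 0 ⊓ D (K' + 1) ≤ D 0 := inf_le_left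
    have hlt : Nat.card (D 0 ⊓ D (K' + 1) : Subgroup P) < Nat.card (D 0) := by
      refine lt_of_le_of_ne (Subgroup.card_le_of_le hle) (fun h => hK1 ?_)
      have := Subgroup.eq_of_le_of_card_ge hle h.ge
      exact this ▸ inf_le_right
    exact ih _ (hn ▸ hlt) P (fun n => D n ⊓ D (K' + 1)) ι K hK rfl hP (hS.mono hle)
      (hD.inf (hD.normal _)) (by simp only [hm, bot_inf_eq]) g ⟨hD.anti (Nat.zero_le _) hg, hg⟩
  -- the new filtration
  let E : ℕ → Subgroup P := fun n => if n < m then D n ⊔ Z else ⊥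
  have E_lt : ∀ {n}, n < m → E n = D n ⊔ Z := fun h => if_pos h
  have E_ge : ∀ {n}, ¬ n < m → E n = ⊥ := fun h => if_neg h
  have E0 : E 0 = D 0 := by rw [E_lt (by omega)]; exact sup_eq_left.2 hZ0
  have DE : ∀ n, D n ≤ E n := by
    intro n
    by_cases h : n < m
    · rw [E_lt h]; exact le_sup_left
    · rw [E_ge h, ← hm']; exact hD.anti (by omega)
  have ZE : ∀ {n}, n < m → Z ≤ E n := fun h => by rw [E_lt h]; exact le_sup_right
  have memE : ∀ {n g}, g ∈ E n → ∃ d ∈ D n, ∃ z ∈ Z, d * z = g := by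
    intro n g hg
    by_cases h : n < m
    · rw [E_lt h] at hg
      have : g ∈ ((D n ⊔ Z : Subgroup P) : Set P) := hg
      rw [Subgroup.mul_normal] at this
      exact this
    · rw [E_ge h, Subgroup.mem_bot] at hg
      exact ⟨1, one_mem _, 1, one_mem _, by simp [hg]⟩
  have hEn : ∀ n, (E n).Normal := by
    intro n
    by_cases h : n < m
    · rw [E_lt h]; haveI := hD.normal n; infer_instance
    · rw [E_ge h]; infer_instance
  have D0 : ∀ {n g}, g ∈ D n → g ∈ D 0 := fun h => hD.anti (Nat.zero_le _) h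
  have hE : IsFil p E := by
    refine ⟨fun {i j} hij => ?_, ?_, ?_, ?_⟩
    · by_cases h : j < m
      · rw [E_lt h, E_lt (by omega)]; exact sup_le_sup_right (hD.anti hij) _
      · rw [E_ge h]; exact bot_le
    · rw [E0]; exact (hD.top.trans (hD.anti hK)).trans (DE 1)
    · intro i j g h hg hh
      obtain ⟨d, hd, z, hz, rfl⟩ := memE hg
      obtain ⟨d', hd', z', hz', rfl⟩ := memE hh
      have c1 := hcen z hz.1 d' (D0 hd')
      have c2 := hcen z' hz'.1 d (D0 hd)
      have c3 := hcen z hz.1 z' (hZ0 hz')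
      have c4 := hcen z hz.1 d (D0 hd)
      have c5 := hcen z' hz'.1 d' (D0 hd')
      have : ⁅d * z, d' * z'⁆ = ⁅d, d'⁆ := by
        have e1 : z * (d' * z') = (d' * z') * z := (c1.mul_right c3).eq
        have e2 : z' * d⁻¹ = d⁻¹ * z' := c2.inv_right.eq
        calc ⁅d * z, d' * z'⁆ = d * (z * (d' * z')) * z⁻¹ * d⁻¹ * z'⁻¹ * d'⁻¹ := by
              simp only [commutatorElement_def]; group
          _ = d * d' * (z' * d⁻¹) * z'⁻¹ * d'⁻¹ := by rw [e1]; group
          _ = ⁅d, d'⁆ := by rw [e2]; simp only [commutatorElement_def]; group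
      rw [this]
      exact DE _ (hD.comm i j d d' hd hd')
    · intro i g hg
      obtain ⟨d, hd, z, hz, rfl⟩ := memE hg
      rw [(hcen z hz.1 d (D0 hd)).symm.mul_pow, hz.2, mul_one]
      by_cases h : i ≤ K'
      · exact ZE (lt_of_le_of_lt (Nat.mul_le_mul_left p h) hmgt) (hTZ d (D0 hd))
      · rw [hT1 d (hD.anti (by omega) hd)]; exact one_mem _
  have act : ∀ (x : P) (k : ℕ), (∀ i g, g ∈ D i → ⁅x, g⁆ ∈ D (i + k)) →
      ∀ i g, g ∈ E i → ⁅x, g⁆ ∈ E (i + k) := by
    intro x k hx i g hg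
    rcases Nat.eq_zero_or_pos k with h0 | h0
    · rw [h0]; exact comm_mem_right (hEn i) x hg
    obtain ⟨d, hd, z, hz, rfl⟩ := memE hg
    have := hD.anti (show l + 1 ≤ l + k by omega) (hx l z hz.1)
    rw [hl1, Subgroup.mem_bot] at this
    have e : ⁅x, d * z⁆ = ⁅x, d⁆ * (d * ⁅x, z⁆ * d⁻¹) := by
      simp only [commutatorElement_def]; group
    rw [e, this]
    simpa using DE _ (hx i d hd)
  have hab : b ≠ a := by
    intro h
    have := hS.indep 1 (p - 1) (by omega) (by omega) (by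
      rw [h, ← pow_add, show 1 + (p - 1) = p by omega, hS.ha])
    omega
  let wt : A → ℕ := fun c => if c = a then s else if c = b then s' else 0
  have wa : wt a = s := if_pos rfl
  have wb : wt b = s' := by simp only [wt, if_neg hab, if_true]
  refine power_trivial (s := wt) hE (E0 ▸ hS) ?_ (K := K') (w0 := m - 1) (m := m)
    (DE _ (hK0 ht)) (ZE (by omega) (hTZ t ht)) (by omega) ?_ (E_ge (lt_irrefl m))
  · intro c j g w hg
    rw [map_pow]
    refine comm_pow_mem (hEn _) ?_ j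
    by_cases h1 : c = a
    · rw [h1, wa]; exact act _ _ hD.acta w g hg
    by_cases h3 : c = b
    · rw [h3, wb]; exact act _ _ hD.actb w g hg
    · simp only [wt, if_neg h1, if_neg h3]
      exact comm_mem_right (hEn w) _ hg
  · rw [wa, wb, hmdef]; apply le_of_eq; ring

theorem ser_pos {P : Type u} [Group P] [Finite P] {D : ℕ → Subgroup P} {ι : A →* P} {a b : A}
    {K s s' : ℕ} (hK : 1 ≤ K) (hs : 1 ≤ s + s') (hP : IsPGroup p P) (hS : Setup p (D 0) ι a b)
    (hD : Ser D ι a b K s s') {t : P} (ht : t ∈ D 0) :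
    t ^ p ∈ D (p * K + (p - 1) * (s + s')) := by
  haveI := hD.normal (p * K + (p - 1) * (s + s'))
  have := ser_trivial a b s s' hs _ (P ⧸ D (p * K + (p - 1) * (s + s')))
    (fun n => (D n).map (QuotientGroup.mk' _)) ((QuotientGroup.mk' _).comp ι) K hK rfl
    (hP.to_quotient _) (hS.map _) (hD.map _ (QuotientGroup.mk'_surjective _))
    (by simp only [Subgroup.map_eq_bot_iff, QuotientGroup.ker_mk', le_refl]) _ ⟨t, ht, rfl⟩
  rw [← map_pow] at this
  exact (QuotientGroup.eq_one_iff _).1 this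

end Pool.Agent.Lib.MP_6d9b00_al.W34
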