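import Pool.Agent.Lib.MP_6d9b00_al.W34.Refine

/-!
The weight estimate in the semidirect product, and three special cases.
-/

set_option autoImplicit false
set_option linter.unusedSectionVars false
set_option linter.style.haveILetI false

namespace Pool.Agent.Lib.MP_6d9b00_al.W34

open scoped commutatorElement
open SemidirectProduct

lemma indep_of_closure {p : ℕ} [hp : Fact p.Prime] {A : Type*} [CommGroup A]
    (hcard : Nat.card A = p ^ 2) (hexp : ∀ a : A, a ^ p = 1) {a b : A}
    (hab : Subgroup.closure {a, b} = ⊤) (i j : ℕ) (hi : i < p) (hj : j < p)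
    (h : a ^ i * b ^ j = 1) : i = 0 ∧ j = 0 := by
  have h2 := hp.out.two_le
  have key : ∀ x y : A, Subgroup.closure {x, y} = ⊤ → ∀ k l : ℕ, 0 < l → l < p →
      x ^ k * y ^ l = 1 → False := by
    intro x y hxy k l hl0 hl h
    have hy : y ∈ Subgroup.zpowers x := by
      have h1 : y ^ l ∈ Subgroup.zpowers x := by
        rw [eq_inv_of_mul_eq_one_right h]
        exact inv_mem (pow_mem (Subgroup.mem_zpowers x) k)
      have h3 : y ∈ Subgroup.zpowers (y ^ l) := by
        rw [mem_zpowers_pow_iff]
        have hd : orderOf y ∣ p := orderOf_dvd_of_pow_eq_one (hexp y)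
        exact Nat.Coprime.coprime_dvd_right hd
          ((Nat.coprime_comm.1 ((Nat.Prime.coprime_iff_not_dvd hp.out).2
            (Nat.not_dvd_of_pos_of_lt hl0 hl))))
      exact (Subgroup.zpowers_le.2 h1) h3
    have htop : Subgroup.zpowers x = ⊤ := by
      rw [eq_top_iff, ← hxy, Subgroup.closure_le]
      rintro z (rfl | rfl)
      · exact Subgroup.mem_zpowers _
      · exact hy
    have h4 : orderOf x = p ^ 2 := by
      rw [← Nat.card_zpowers, htop, Subgroup.card_top, hcard]
    have h5 : orderOf x ≤ p := Nat.le_of_dvd hp.out.pos (orderOf_dvd_of_pow_eq_one (hexp x))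
    nlinarith
  by_contra hne
  rcases Nat.eq_zero_or_pos j with h0 | h0
  · refine key b a (by rw [Set.pair_comm, hab]) j i ?_ hi (by rw [mul_comm, h])
    omega
  · exact key a b hab i j h0 hj h

theorem weight_bound (p : ℕ) (hp : p.Prime) (T : Type) [Group T] [Finite T] (hT : IsPGroup p T)
    (A : Subgroup (MulAut T)) (hcard : Nat.card A = p ^ 2) (hexp : ∀ a : A, a ^ p = 1)
    (hord : ∀ (t : T) (a : A), a ≠ 1 →
        orderOf (⟨t, a⟩ : SemidirectProduct T A A.subtype) = p)
    (a b : A) (hab : Subgroup.closure {a, b} = ⊤)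
    (D : ℕ → Subgroup T) (k r s : ℕ) (hanti : Antitone D) (htop : D k = ⊤)
    (hcomm : ∀ i j, ⁅D i, D j⁆ ≤ D (i + j))
    (ha : ∀ i, ∀ g ∈ D i, (a : MulAut T) g * g⁻¹ ∈ D (i + r))
    (hb : ∀ i, ∀ g ∈ D i, (b : MulAut T) g * g⁻¹ ∈ D (i + s)) (t : T) :
    t ^ p ∈ D (p * k + (p - 1) * (r + s)) := by
  haveI : Fact p.Prime := ⟨hp⟩
  have hA : IsPGroup p A := fun c => ⟨1, by rw [pow_one, hexp]⟩
  have hcm := IsPGroup.isMulCommutative_of_card_eq_prime_sq hcard
  letI : CommGroup A := { (inferInstance : Group A) with mul_comm := hcm.is_comm.comm }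
  haveI : Finite A := Nat.finite_of_card_ne_zero (by rw [hcard]; exact pow_ne_zero _ hp.ne_zero)
  haveI : Finite (SemidirectProduct T A A.subtype) := Finite.of_equiv _ equivProd.symm
  have hP : IsPGroup p (SemidirectProduct T A A.subtype) := by
    obtain ⟨n, hn⟩ := IsPGroup.iff_card.1 hT
    exact IsPGroup.of_card (n := n + 2) (by rw [SemidirectProduct.card, hn, hcard, pow_add])
  have D0 : D 0 = ⊤ := eq_top_iff.2 (htop ▸ hanti (Nat.zero_le k))
  have hinvT : ∀ i, (D i).Normal := fun i => ⟨fun g hg x => by
    have := hanti (Nat.le_add_left i k)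
      (hcomm k i (Subgroup.commutator_mem_commutator (htop ▸ Subgroup.mem_top x) hg))
    have := mul_mem this hg
    convert this using 1
    simp only [commutatorElement_def]; group⟩
  have hinvA : ∀ i (c : A), ∀ g ∈ D i, (c : MulAut T) g ∈ D i := by
    intro i c
    have hc : c ∈ Subgroup.closure {a, b} := hab ▸ Subgroup.mem_top c
    induction hc using Subgroup.closure_induction with
    | mem c hc =>
      rcases hc with rfl | rfl
      · intro g hg
        simpa using mul_mem (hanti (Nat.le_add_right i r) (ha i g hg)) hg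
      · intro g hg
        simpa using mul_mem (hanti (Nat.le_add_right i s) (hb i g hg)) hg
    | one => intro g hg; exact hg
    | mul c c' _ _ h h' => intro g hg; exact h _ (h' g hg)
    | inv c _ h =>
      have : ∀ n : ℕ, ∀ g ∈ D i, ((c ^ n : A) : MulAut T) g ∈ D i := by
        intro n
        induction n with
        | zero => intro g hg; exact hg
        | succ n ih => intro g hg; rw [pow_succ]; exact ih _ (h g hg)
      have e : c⁻¹ = c ^ (p - 1) := by
        rw [inv_eq_iff_mul_eq_one, ← pow_succ', Nat.sub_add_cancel hp.pos, hexp]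
      rw [e]; exact this _
  have hci : ∀ (c : A) (g : T), ⁅(inr c : SemidirectProduct T A A.subtype),
      (inl g : SemidirectProduct T A A.subtype)⁆ = inl ((c : MulAut T) g * g⁻¹) := by
    intro c g
    rw [commutatorElement_def, map_mul, map_inv, ← map_inv inr, ← inl_aut]
    rfl
  have hD : Ser (fun n => (D n).map (inl : T →* SemidirectProduct T A A.subtype)) inr a b
      k r s := by
    refine ⟨fun n => ⟨?_⟩, fun hij => Subgroup.map_mono (hanti hij), by rw [D0, htop], ?_, ?_, ?_⟩
    · rintro _ ⟨g, hg, rfl⟩ x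
      refine ⟨x.left * (x.right : MulAut T) g * x.left⁻¹,
        (hinvT n).conj_mem _ (hinvA n _ g hg) _, ?_⟩
      have := inl_aut (φ := A.subtype) x.right g
      rw [map_mul, map_mul, map_inv]
      conv_rhs => rw [← inl_left_mul_inr_right x]
      rw [show ((x.right : MulAut T) g) = A.subtype x.right g from rfl, this, map_inv]
      group
    · rintro i j _ _ ⟨g, hg, rfl⟩ ⟨h, hh, rfl⟩
      exact ⟨_, hcomm i j (Subgroup.commutator_mem_commutator hg hh), map_commutatorElement _ g h⟩
    · rintro i _ ⟨g, hg, rfl⟩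
      exact ⟨_, ha i g hg, (hci a g).symm⟩
    · rintro i _ ⟨g, hg, rfl⟩
      exact ⟨_, hb i g hg, (hci b g).symm⟩
  have hS : Setup p ((D 0).map (inl : T →* SemidirectProduct T A A.subtype)) inr a b := by
    refine ⟨hexp a, hexp b, indep_of_closure hcard hexp hab, ?_⟩
    rintro _ ⟨g, _, rfl⟩ c hc
    rw [← mk_eq_inl_mul_inr, ← hord g c hc, pow_orderOf_eq_one]
  obtain ⟨u, hu, e⟩ := ser_main hP hS hD (t := inl t) ⟨t, D0 ▸ Subgroup.mem_top t, rfl⟩
  rw [← map_pow] at e
  exact inl_injective e ▸ hu

lemma exists_gen {p : ℕ} (hp : p.Prime) {A : Type*} [Group A] (hcard : Nat.card A = p ^ 2)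
    (hexp : ∀ a : A, a ^ p = 1) {b : A} (hb : b ≠ 1) : ∃ a : A, Subgroup.closure {a, b} = ⊤ := by
  haveI : Fact p.Prime := ⟨hp⟩
  haveI : Finite A := Nat.finite_of_card_ne_zero (by rw [hcard]; exact pow_ne_zero _ hp.ne_zero)
  have h2 := hp.two_le
  have hob : Nat.card (Subgroup.zpowers b) = p := by
    rw [Nat.card_zpowers]; exact orderOf_eq_prime (hexp b) hb
  obtain ⟨a, ha⟩ : ∃ a, a ∉ Subgroup.zpowers b := by
    by_contra h
    push Not at h
    rw [(Subgroup.eq_top_iff' _).2 h, Subgroup.card_top, hcard] at hob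
    nlinarith
  refine ⟨a, ?_⟩
  have hle : Subgroup.zpowers b ≤ Subgroup.closure {a, b} :=
    Subgroup.zpowers_le.2 (Subgroup.subset_closure (by simp))
  have hdvd : Nat.card (Subgroup.closure {a, b}) ∣ p ^ 2 := hcard ▸ Subgroup.card_subgroup_dvd_card _
  obtain ⟨i, hi, hi'⟩ := (Nat.dvd_prime_pow hp).1 hdvd
  by_cases h : i = 2
  · exact Subgroup.eq_top_of_card_eq _ (by rw [hi', hcard, h])
  · exfalso
    have h3 : p ^ i ≤ p ^ 1 := Nat.pow_le_pow_right hp.pos (by omega)
    have := Subgroup.eq_of_le_of_card_ge hle (by rw [hob, hi']; simpa using h3)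
    exact ha (this ▸ Subgroup.subset_closure (by simp))

lemma exists_gen' {p : ℕ} (hp : p.Prime) {A : Type*} [Group A] (hcard : Nat.card A = p ^ 2)
    (hexp : ∀ a : A, a ^ p = 1) : ∃ a b : A, Subgroup.closure {a, b} = ⊤ := by
  haveI : Finite A := Nat.finite_of_card_ne_zero (by rw [hcard]; exact pow_ne_zero _ hp.ne_zero)
  haveI : Nontrivial A := Finite.one_lt_card_iff_nontrivial.1 (by
    rw [hcard]; exact Nat.one_lt_pow (by omega) hp.one_lt)
  obtain ⟨b, hb⟩ := exists_ne (1 : A)
  obtain ⟨a, ha⟩ := exists_gen hp hcard hexp hb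
  exact ⟨a, b, ha⟩

section cor
variable (p : ℕ) (hp : p.Prime) (T : Type) [Group T] [Finite T] (hT : IsPGroup p T)
    (A : Subgroup (MulAut T)) (hcard : Nat.card A = p ^ 2) (hexp : ∀ a : A, a ^ p = 1)
    (hord : ∀ (t : T) (a : A), a ≠ 1 →
        orderOf (⟨t, a⟩ : SemidirectProduct T A A.subtype) = p)
include hp hT hcard hexp hord

/-- `p`-th powers of elements of `T` lie in the term of index `3p - 2` (counting from one) of the
lower central series of the semidirect product -/
theorem pow_mem_lcs_semidirect (t : T) :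
    (inl (t ^ p) : SemidirectProduct T A A.subtype) ∈
      (⊤ : Subgroup (SemidirectProduct T A A.subtype)).lowerCentralSeries (3 * p - 3) := by
  obtain ⟨a, b, hab⟩ := exists_gen' hp hcard hexp
  have h2 := hp.two_le
  have act : ∀ (c : A) (i : ℕ) (g : T), (inl g : SemidirectProduct T A A.subtype) ∈
      (⊤ : Subgroup _).lowerCentralSeries i →
      (inl ((c : MulAut T) g * g⁻¹) : SemidirectProduct T A A.subtype) ∈
        (⊤ : Subgroup _).lowerCentralSeries (i + 1) := by
    intro c i g hg
    have := lcs_comm_mem (i := 0) (Subgroup.mem_top (inr c)) hg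
    rw [commutatorElement_def, ← map_inv inr, ← inl_aut, ← map_inv, ← map_mul, zero_add] at this
    exact this
  have := weight_bound p hp T hT A hcard hexp hord a b hab
    (fun i => ((⊤ : Subgroup (SemidirectProduct T A A.subtype)).lowerCentralSeries (i - 1)).comap
      inl) 1 1 1
    (fun i j hij => Subgroup.comap_mono (Subgroup.lowerCentralSeries_antitone ⊤ (by omega)))
    (by simp) (fun i j => Subgroup.commutator_le.2 (fun g hg h hh => by
      rw [Subgroup.mem_comap, map_commutatorElement]
      exact Subgroup.lowerCentralSeries_antitone ⊤ (by omega) (lcs_comm_mem hg hh)))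
    (fun i g hg => Subgroup.lowerCentralSeries_antitone ⊤ (by omega) (act a _ g hg))
    (fun i g hg => Subgroup.lowerCentralSeries_antitone ⊤ (by omega) (act b _ g hg)) t
  rw [Subgroup.mem_comap, show p * 1 + (p - 1) * (1 + 1) - 1 = 3 * p - 3 by omega] at this
  exact this

/-- `p`-th powers of elements of `T` lie in the term of index `p` (counting from one) of the
lower central series of `T` -/
theorem pow_mem_lcs (t : T) : t ^ p ∈ (⊤ : Subgroup T).lowerCentralSeries (p - 1) := by
  obtain ⟨a, b, hab⟩ := exists_gen' hp hcard hexp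
  have act : ∀ (c : A) (i : ℕ) (g : T), g ∈ (⊤ : Subgroup T).lowerCentralSeries i →
      (c : MulAut T) g * g⁻¹ ∈ (⊤ : Subgroup T).lowerCentralSeries i := by
    intro c i g hg
    refine mul_mem ?_ (inv_mem hg)
    exact (Subgroup.characteristic_iff_le_comap.1 inferInstance (c : MulAut T)) hg
  have := weight_bound p hp T hT A hcard hexp hord a b hab
    (fun i => (⊤ : Subgroup T).lowerCentralSeries (i - 1)) 1 0 0
    (fun i j hij => Subgroup.lowerCentralSeries_antitone ⊤ (by omega)) rfl
    (fun i j => (lcs_comm _ _).trans (Subgroup.lowerCentralSeries_antitone ⊤ (by omega)))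
    (fun i g hg => act a _ g hg) (fun i g hg => act b _ g hg) t
  simpa using this

/-- `p`-th powers of elements of `T` lie in the term of index `p - 1` (counting from one) of the
lower central series of the normal closure of any nontrivial element of `A` -/
theorem pow_mem_lcs_normalClosure (b : A) (hb : b ≠ 1) (t : T) :
    (inl (t ^ p) : SemidirectProduct T A A.subtype) ∈
      (Subgroup.normalClosure {(inr b : SemidirectProduct T A A.subtype)}).lowerCentralSeries
        (p - 2) := by
  obtain ⟨a, hab⟩ := exists_gen hp hcard hexp hb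
  have h2 := hp.two_le
  set N := Subgroup.normalClosure {(inr b : SemidirectProduct T A A.subtype)} with hN
  have hbN : (inr b : SemidirectProduct T A A.subtype) ∈ N := Subgroup.subset_normalClosure rfl
  have hLn : ∀ i, (N.lowerCentralSeries i).Normal := by
    intro i
    induction i with
    | zero => exact Subgroup.normalClosure_normal
    | succ i ih => rw [Subgroup.lowerCentralSeries_succ]; infer_instance
  have hL : ∀ i j, ⁅N.lowerCentralSeries i, N.lowerCentralSeries j⁆
      ≤ N.lowerCentralSeries (i + j + 1) := by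
    intro i j
    rw [← Subgroup.top_subtype_lowerCentralSeries N i, ← Subgroup.top_subtype_lowerCentralSeries N j,
      ← Subgroup.top_subtype_lowerCentralSeries N (i + j + 1), ← Subgroup.map_commutator]
    exact Subgroup.map_mono (lcs_comm _ _)
  let E : ℕ → Subgroup (SemidirectProduct T A A.subtype) := fun i =>
    match i with
    | 0 => ⊤
    | i + 1 => N.lowerCentralSeries i
  have hEn : ∀ i, (E i).Normal := fun i => match i with
    | 0 => inferInstanceAs (⊤ : Subgroup _).Normal
    | i + 1 => hLn i
  have hci : ∀ (c : A) (g : T), ⁅(inr c : SemidirectProduct T A A.subtype),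
      (inl g : SemidirectProduct T A A.subtype)⁆ = inl ((c : MulAut T) g * g⁻¹) := by
    intro c g
    rw [commutatorElement_def, map_mul, map_inv, ← map_inv inr, ← inl_aut]
    rfl
  have hE : ∀ i j g h, g ∈ E i → h ∈ E j → ⁅g, h⁆ ∈ E (i + j) := by
    intro i j g h hg hh
    rcases i with _ | i
    · rw [zero_add]; exact comm_mem_right (hEn j) g hh
    rcases j with _ | j
    · exact comm_symm_mem (comm_mem_right (hEn (i + 1)) h hg)
    · rw [show i + 1 + (j + 1) = (i + j + 1) + 1 by omega]
      exact hL i j (Subgroup.commutator_mem_commutator hg hh)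
  have := weight_bound p hp T hT A hcard hexp hord a b hab (fun i => (E i).comap inl) 0 0 1
    (fun i j hij => Subgroup.comap_mono (by
      rcases i with _ | i
      · exact le_top
      · obtain ⟨j, rfl⟩ : ∃ j', j = j' + 1 := ⟨j - 1, by omega⟩
        exact Subgroup.lowerCentralSeries_antitone N (by omega)))
    (by simp [E]) (fun i j => Subgroup.commutator_le.2 (fun g hg h hh => by
      rw [Subgroup.mem_comap, map_commutatorElement]
      exact hE i j _ _ hg hh))
    (fun i g hg => by
      rw [Subgroup.mem_comap, ← hci]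
      exact comm_mem_right (hEn i) _ hg)
    (fun i g hg => by
      rw [Subgroup.mem_comap, ← hci, add_comm]
      exact hE 1 i _ _ hbN hg) t
  rw [Subgroup.mem_comap, show p * 0 + (p - 1) * (0 + 1) = (p - 2) + 1 by omega] at this
  exact this

end cor

end Pool.Agent.Lib.MP_6d9b00_al.W34
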